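import Pool.Agent.H345R2.AS.Local
import Pool.Agent.H370R2.PC4
import Pool.Agent.H510R2.Div

/-! The second moment of the off-diagonal part: choice of the parameters. -/

open Complex Filter Topology Set MeasureTheory
open scoped BigOperators ComplexConjugate

namespace H370.AS

/-- the coefficients -/
noncomputable def bb (a : ℕ → ℂ) (u : ℝ) (n : ℕ) : ℂ :=
  a n * (Real.sqrt n : ℂ)⁻¹ * Real.exp (-(u - Real.log n) ^ 2 / 2)

lemma norm_bb (a : ℕ → ℂ) (u : ℝ) (n : ℕ) :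
    ‖bb a u n‖ = ‖a n‖ * (Real.sqrt n)⁻¹ * Real.exp (-(u - Real.log n) ^ 2 / 2) := by
  unfold bb
  rw [norm_mul, norm_mul, norm_inv, Complex.norm_real, Complex.norm_real,
    Real.norm_of_nonneg (Real.sqrt_nonneg _), Real.norm_of_nonneg (Real.exp_pos _).le]

section

variable {a : ℕ → ℂ} (ha : ∀ n, ‖a n‖ ≤ ArithmeticFunction.vonMangoldt n)

include ha in
lemma bb_le (u : ℝ) (X : ℕ) : ∀ n ∈ Finset.Icc 1 X, ‖bb a u n‖ ≤ Real.log X / Real.sqrt n := by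
  intro n hn
  rw [Finset.mem_Icc] at hn
  have hn0 : (0 : ℝ) < n := by exact_mod_cast hn.1
  rw [norm_bb]
  have h1 : ‖a n‖ ≤ Real.log X := by
    refine (ha n).trans (ArithmeticFunction.vonMangoldt_le_log.trans ?_)
    exact Real.log_le_log hn0 (by exact_mod_cast hn.2)
  have h2 : Real.exp (-(u - Real.log n) ^ 2 / 2) ≤ 1 := by
    apply Real.exp_le_one_iff.mpr
    have : 0 ≤ (u - Real.log n) ^ 2 := sq_nonneg _
    linarith
  have h3 : 0 < Real.sqrt n := Real.sqrt_pos.mpr hn0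
  calc ‖a n‖ * (Real.sqrt n)⁻¹ * Real.exp (-(u - Real.log n) ^ 2 / 2) ≤
      Real.log X * (Real.sqrt n)⁻¹ * 1 := by
        have : 0 ≤ Real.log X := (norm_nonneg _).trans h1
        gcongr
    _ = _ := by rw [mul_one, div_eq_mul_inv]

include ha in
lemma bb_sq_le (u : ℝ) (X : ℕ) : ∑ n ∈ Finset.Icc 1 X, ‖bb a u n‖ ^ 2 ≤ VV u := by
  have h4 : ∀ n ∈ Finset.Icc 1 X, ‖bb a u n‖ ^ 2 ≤ (ArithmeticFunction.vonMangoldt n) ^ 2 / n *
      Real.exp (-(u - Real.log n) ^ 2) := by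
    intro n hn
    have hn1 : 1 ≤ n := (Finset.mem_Icc.mp hn).1
    have hn0 : (0 : ℝ) < n := by exact_mod_cast hn1
    rw [norm_bb, mul_pow, mul_pow, inv_pow, Real.sq_sqrt hn0.le, ← Real.exp_nat_mul,
      ← div_eq_mul_inv]
    have e1 : ((2 : ℕ) : ℝ) * (-(u - Real.log n) ^ 2 / 2) = -(u - Real.log n) ^ 2 := by
      push_cast; ring
    rw [e1]
    have := ha n
    gcongr
  exact (Finset.sum_le_sum h4).trans
    ((VV_summable u).sum_le_tsum _ fun n _ => VV_term_nonneg u n)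

end

lemma ev_log_pow (C κ : ℝ) (k : ℕ) (hκ : 0 < κ) (hk : 0 < k) :
    ∀ᶠ T : ℝ in atTop, C * (1 + Real.log T) ^ k ≤ T ^ κ := by
  have h1 : (fun T : ℝ => 1 + Real.log T) =o[atTop] fun T : ℝ => T ^ (κ / k) := by
    have hkr : (0 : ℝ) < k := by exact_mod_cast hk
    have h2 : (fun _ : ℝ => (1 : ℝ)) =o[atTop] fun T : ℝ => T ^ (κ / k) := by
      rw [Asymptotics.isLittleO_const_left]
      right
      exact tendsto_norm_atTop_atTop.comp (tendsto_rpow_atTop (by positivity))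
    exact h2.add (isLittleO_log_rpow_atTop (by positivity))
  have h3 := (h1.pow hk).const_mul_left C
  have h4 := h3.bound (show (0 : ℝ) < 1 by norm_num)
  filter_upwards [h4, eventually_ge_atTop 1] with T hT hT1
  have hT0 : (0 : ℝ) < T := by linarith
  have e : (T ^ (κ / k)) ^ k = T ^ κ := by
    rw [← Real.rpow_natCast, ← Real.rpow_mul hT0.le]
    congr 1
    have : (k : ℝ) ≠ 0 := by exact_mod_cast hk.ne'
    field_simp
  rw [e, one_mul, Real.norm_of_nonneg (by positivity : 0 ≤ T ^ κ)] at hT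
  exact (Real.le_norm_self _).trans hT

lemma ev_exp (κ : ℝ) (hκ : 0 < κ) :
    ∀ᶠ T : ℝ in atTop, Real.exp (-(T ^ κ) ^ 2 / 2) ≤ T ^ (-6 : ℝ) := by
  have h1 := isLittleO_exp_neg_mul_rpow_atTop (a := 1 / 2) (by norm_num) (-6 / (2 * κ))
  have h2 := h1.comp_tendsto (tendsto_rpow_atTop (show 0 < 2 * κ by positivity))
  have h3 := h2.bound (show (0 : ℝ) < 1 by norm_num)
  filter_upwards [h3, eventually_gt_atTop 0] with T hT hT0
  simp only [Function.comp_apply] at hT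
  rw [Real.norm_of_nonneg (Real.exp_pos _).le, Real.norm_of_nonneg (by positivity), one_mul,
    ← Real.rpow_mul hT0.le] at hT
  have e1 : 2 * κ * (-6 / (2 * κ)) = -6 := by field_simp
  rw [e1] at hT
  refine le_trans (le_of_eq ?_) hT
  congr 1
  rw [← Real.rpow_natCast, ← Real.rpow_mul hT0.le]
  have e2 : κ * ((2 : ℕ) : ℝ) = 2 * κ := by push_cast; ring
  rw [e2]
  ring

/-- the second moment is small -/
theorem EE_small (η0 lam : ℝ) (hη0 : 0 < η0) (hη1 : η0 < 1) (hlam : 0 < lam)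
    (hgap : 2 * lam < 1 + η0) : ∃ κ0 : ℝ, 0 < κ0 ∧ ∀ κ : ℝ, 0 < κ → κ ≤ κ0 →
    ∃ T0 : ℝ, 10 ≤ T0 ∧ ∀ T : ℝ, T0 ≤ T → ∀ H : ℝ, T ^ η0 ≤ H →
      ∀ a : ℕ → ℂ, (∀ n, ‖a n‖ ≤ ArithmeticFunction.vonMangoldt n) → ∀ u : ℝ,
      ∫ x in (0 : ℝ)..(4 * T), ‖EE (bb a u) ⌊T ^ (lam + κ)⌋₊ (H * T ^ (-κ)) x‖ ^ 2 ≤
        T ^ (1 - 2 * κ) := by
  set g : ℝ := min (min (1 + η0 - 2 * lam) η0) (1 - lam) with hg
  have hg0 : 0 < g := lt_min (lt_min (by linarith) hη0) (by linarith)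
  refine ⟨g / 16, by positivity, fun κ hκ0 hκg => ?_⟩
  have hκ1 : 16 * κ ≤ 1 + η0 - 2 * lam := by
    have := (min_le_left _ _).trans (min_le_left (1 + η0 - 2 * lam) η0) |> (le_trans (le_of_eq hg)) 
    linarith
  have hκ2 : 16 * κ ≤ η0 := by
    have : g ≤ η0 := (min_le_left _ _).trans (min_le_right _ _)
    linarith
  have hκ3 : 16 * κ ≤ 1 - lam := by
    have : g ≤ 1 - lam := min_le_right _ _
    linarith
  obtain ⟨Cd, hCd, hdiv⟩ := Pool.Agent.H510R2.divisor_bound (κ / 2) (by positivity)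
  set c1 : ℝ := Real.sqrt (2 * Real.pi) * Real.exp 2 with hc1
  have hc10 : 0 < c1 := by positivity
  have ev1 := ev_log_pow (c1 * (20 * Cd + 1)) κ 6 hκ0 (by norm_num)
  have ev2 := ev_exp κ hκ0
  obtain ⟨T1, hT1⟩ := (ev1.and (ev2.and (Real.tendsto_log_atTop.eventually_ge_atTop 1))).exists_forall_of_atTop
  refine ⟨max T1 10, le_max_right _ _, fun T hT H hH a ha u => ?_⟩
  obtain ⟨e1, e2, e3⟩ := hT1 T ((le_max_left _ _).trans hT)
  have hT10 : 10 ≤ T := (le_max_right _ _).trans hT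
  have hT0 : 0 < T := by linarith
  have hT1' : 1 ≤ T := by linarith
  set L := Real.log T with hL
  set X : ℕ := ⌊T ^ (lam + κ)⌋₊ with hX
  have hTκ : 0 < T ^ κ := Real.rpow_pos_of_pos hT0 _
  have hXle : (X : ℝ) ≤ T ^ (lam + κ) := Nat.floor_le (by positivity)
  have hXT : (X : ℝ) ≤ T := by
    calc (X : ℝ) ≤ T ^ (lam + κ) := hXle
      _ ≤ T ^ (1 : ℝ) := Real.rpow_le_rpow_of_exponent_le hT1' (by linarith)
      _ = T := Real.rpow_one T
  have hlogX0 : 0 ≤ Real.log X := Real.log_natCast_nonneg X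
  have hlogX : Real.log X ≤ L := by
    rcases Nat.eq_zero_or_pos X with h0 | h0
    · rw [h0]; simp; linarith
    · exact Real.log_le_log (by exact_mod_cast h0) hXT
  have hHpos : 0 < H := lt_of_lt_of_le (Real.rpow_pos_of_pos hT0 _) hH
  set ω : ℝ := T ^ (2 * κ) / H with hω
  set ν : ℝ := T ^ (κ - 1) with hν
  have hω0 : 0 < ω := by positivity
  have hν0 : 0 < ν := by positivity
  have hωle : ω ≤ T ^ (2 * κ - η0) := by
    rw [hω, div_le_iff₀ hHpos]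
    calc T ^ (2 * κ) = T ^ (2 * κ - η0) * T ^ η0 := by
          rw [← Real.rpow_add hT0]; congr 1; ring
      _ ≤ T ^ (2 * κ - η0) * H := by gcongr
  have hω1 : ω ≤ 1 := hωle.trans (Real.rpow_le_one_of_one_le_of_nonpos hT1' (by linarith))
  have hν1 : ν ≤ 1 := Real.rpow_le_one_of_one_le_of_nonpos hT1' (by linarith)
  have hνX : ν * X < 1 := by
    calc ν * X ≤ T ^ (κ - 1) * T ^ (lam + κ) := by gcongr
      _ = T ^ (κ - 1 + (lam + κ)) := by rw [← Real.rpow_add hT0]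
      _ < 1 := Real.rpow_lt_one_of_one_lt_of_neg (by linarith) (by linarith)
  set D : ℕ := ⌊Cd * T ^ κ⌋₊ with hD
  have hDle : (D : ℝ) ≤ Cd * T ^ κ := Nat.floor_le (by positivity)
  have hdv : ∀ v : ℕ, 1 ≤ v → v ≤ X ^ 2 → v.divisors.card ≤ D := by
    intro v hv1 hv2
    apply Nat.le_floor
    refine (hdiv v hv1).trans ?_
    apply mul_le_mul_of_nonneg_left _ hCd.le
    have hv3 : (v : ℝ) ≤ T ^ 2 := by
      calc (v : ℝ) ≤ ((X ^ 2 : ℕ) : ℝ) := by exact_mod_cast hv2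
        _ = (X : ℝ) ^ 2 := by push_cast; ring
        _ ≤ T ^ 2 := by gcongr
    calc (v : ℝ) ^ (κ / 2) ≤ (T ^ 2) ^ (κ / 2) := by gcongr
      _ = T ^ κ := by
        rw [← Real.rpow_natCast, ← Real.rpow_mul hT0.le]
        congr 1
        push_cast; ring
  set τ : ℝ := Real.exp (-(T ^ κ) ^ 2 / 2) with hτ
  have hσω : H * T ^ (-κ) * ω = T ^ κ := by
    rw [hω]
    have : H * T ^ (-κ) * (T ^ (2 * κ) / H) = T ^ (-κ) * T ^ (2 * κ) := by field_simp
    rw [this, ← Real.rpow_add hT0]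
    congr 1; ring
  have hsν : T * ν = T ^ κ := by
    rw [hν]
    conv_lhs => rw [← Real.rpow_one T, ← Real.rpow_mul hT0.le, one_mul, ← Real.rpow_add hT0]
    congr 1; ring
  have hmain := EE_second (bb a u) X D (H * T ^ (-κ)) T (2 * T) (Real.log X) ω ν τ hT0
    hlogX0 (bb_le ha u X) hω0.le hω1 hν0.le hν1 hνX hdv
    (by rw [← mul_pow, hσω, hτ]) (by rw [← mul_pow, hsν, hτ])
  have e0 : 2 * T - 2 * T = 0 := by ring
  have e4 : 2 * T + 2 * T = 4 * T := by ring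
  rw [e0, e4] at hmain
  refine hmain.trans ?_
  -- numerics
  have hν2 : 4 * ν * (X : ℝ) ^ 2 + 1 ≤ 4 * T ^ (3 * κ + 2 * lam - 1) + 1 := by
    have h1 : ν * (X : ℝ) ^ 2 ≤ T ^ (3 * κ + 2 * lam - 1) := by
      calc ν * (X : ℝ) ^ 2 ≤ T ^ (κ - 1) * (T ^ (lam + κ)) ^ 2 := by gcongr
        _ = T ^ (3 * κ + 2 * lam - 1) := by
          rw [← Real.rpow_natCast, ← Real.rpow_mul hT0.le, ← Real.rpow_add hT0]
          congr 1
          push_cast; ring
    linarith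
  have hA : 4 * ω * (D * (4 * ν * (X : ℝ) ^ 2 + 1)) ≤ 20 * Cd * T ^ (-(10 * κ)) := by
    calc 4 * ω * (D * (4 * ν * (X : ℝ) ^ 2 + 1)) ≤
        4 * T ^ (2 * κ - η0) * (Cd * T ^ κ * (4 * T ^ (3 * κ + 2 * lam - 1) + 1)) := by gcongr
      _ = 16 * Cd * (T ^ (2 * κ - η0) * T ^ κ * T ^ (3 * κ + 2 * lam - 1)) +
          4 * Cd * (T ^ (2 * κ - η0) * T ^ κ) := by ring
      _ = 16 * Cd * T ^ (6 * κ + 2 * lam - 1 - η0) + 4 * Cd * T ^ (3 * κ - η0) := by
          rw [← Real.rpow_add hT0, ← Real.rpow_add hT0]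
          congr 3 <;> ring
      _ ≤ 16 * Cd * T ^ (-(10 * κ)) + 4 * Cd * T ^ (-(10 * κ)) := by
          gcongr
          · linarith
          · linarith
      _ = _ := by ring
  have hB : τ * (X : ℝ) ^ 4 ≤ T ^ (-(10 * κ)) := by
    calc τ * (X : ℝ) ^ 4 ≤ T ^ (-6 : ℝ) * T ^ 4 := by gcongr
      _ = T ^ (-2 : ℝ) := by
        rw [← Real.rpow_natCast, ← Real.rpow_add hT0]
        norm_num
      _ ≤ T ^ (-(10 * κ)) := Real.rpow_le_rpow_of_exponent_le hT1' (by linarith)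
  have hL0 : 0 ≤ L := by linarith
  calc T * Real.sqrt (2 * Real.pi) * Real.exp 2 * ((Real.log X) ^ 4 *
        (4 * ω * (D * (4 * ν * (X : ℝ) ^ 2 + 1)) * (1 + Real.log X) ^ 2 + τ * (X : ℝ) ^ 4)) ≤
      T * Real.sqrt (2 * Real.pi) * Real.exp 2 * ((1 + L) ^ 4 *
        (20 * Cd * T ^ (-(10 * κ)) * (1 + L) ^ 2 + T ^ (-(10 * κ)) * (1 + L) ^ 2)) := by
        have h5 : T ^ (-(10 * κ)) ≤ T ^ (-(10 * κ)) * (1 + L) ^ 2 := by
          have : (1 : ℝ) ≤ (1 + L) ^ 2 := one_le_pow₀ (by linarith)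
          have h6 : 0 < T ^ (-(10 * κ)) := Real.rpow_pos_of_pos hT0 _
          nlinarith
        have h7 := hB.trans h5
        have h8 : Real.log X ≤ 1 + L := by linarith
        gcongr
    _ = T * (c1 * (20 * Cd + 1) * (1 + L) ^ 6) * T ^ (-(10 * κ)) := by rw [hc1]; ring
    _ ≤ T * T ^ κ * T ^ (-(10 * κ)) := by gcongr
    _ = T ^ (1 + κ + -(10 * κ)) := by
        rw [Real.rpow_add hT0, Real.rpow_add hT0, Real.rpow_one]
    _ ≤ T ^ (1 - 2 * κ) := Real.rpow_le_rpow_of_exponent_le hT1' (by linarith)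

end H370.AS
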