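import Pool.Agent.H345R2.AS.Main
import Pool.Agent.H437R2.A3e
import Pool.Agent.H370R2.Final
import Pool.Agent.H370R2.DirGood

/-! Zero density for the zeta function removes few intervals. -/

open Complex Filter Topology Set MeasureTheory
open scoped BigOperators ComplexConjugate

namespace H370.AS

theorem bad_card : ∃ C : ℝ, 0 < C ∧ ∃ T0 : ℝ, 10 ≤ T0 ∧ ∀ T : ℝ, T0 ≤ T → ∀ Z : Finset ℂ,
    (∀ s ∈ Z, riemannZeta s = 0 ∧ 11 / 16 < s.re ∧ 1 < s.im ∧ s.im ≤ 4 * T) →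
    (Z.card : ℝ) ≤ C * (T ^ (127 / 128 : ℝ) * Real.log T) := by
  obtain ⟨C, hC, hb⟩ := Pool.Agent.H437R2.block_count
  set K : ℝ := 4 * 3 ^ 16 with hK
  have hK1 : 1 ≤ K := by rw [hK]; norm_num
  refine ⟨C * (K * 2), by positivity, K + 10, by linarith, fun T hT Z hZ => ?_⟩
  have hTpos : 0 < T := by linarith
  have hT1 : 1 ≤ T := by linarith
  set y : ℝ := (4 * T) ^ (1 / 16 : ℝ) with hy
  have hy0 : 0 < y := by positivity
  have hy1 : 1 ≤ y := Real.one_le_rpow (by linarith) (by norm_num)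
  have hy16 : y ^ 16 = 4 * T := by
    rw [hy, ← Real.rpow_natCast, ← Real.rpow_mul (by positivity)]
    norm_num
  set X : ℕ := ⌈y⌉₊ + 1 with hX
  have hX1 : y ≤ X := by
    rw [hX]; push_cast
    exact (Nat.le_ceil y).trans (by linarith)
  have hX2 : (X : ℝ) ≤ 3 * y := by
    rw [hX]; push_cast
    have := (Nat.ceil_lt_add_one hy0.le).le
    linarith
  have hX3 : 2 ≤ X := by
    have : 1 ≤ ⌈y⌉₊ := Nat.one_le_ceil_iff.2 hy0
    omega
  have hX0 : (0 : ℝ) < X := by linarith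
  have h16l : 4 * T ≤ (X : ℝ) ^ 16 := by
    rw [← hy16]
    exact pow_le_pow_left₀ hy0.le hX1 16
  have h16u : (X : ℝ) ^ 16 ≤ K * T := by
    calc (X : ℝ) ^ 16 ≤ (3 * y) ^ 16 := pow_le_pow_left₀ hX0.le hX2 16
      _ = 3 ^ 16 * y ^ 16 := by ring
      _ = K * T := by rw [hy16, hK]; ring
  have h := hb X Z hX3 fun ρ hρ => by
    obtain ⟨h1, h2, h3, h4⟩ := hZ ρ hρ
    have hne : ρ ≠ 1 := by
      intro h
      rw [h] at h3
      simp at h3
      linarith
    refine ⟨⟨?_, h2.le⟩, ?_, ?_⟩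
    · rw [riemannZeta_eq_inv_sub_mul hne] at h1
      rcases mul_eq_zero.1 h1 with h5 | h5
      · exact absurd (inv_eq_zero.1 h5) (sub_ne_zero.2 hne)
      · exact h5
    · rw [abs_of_pos (by linarith)]; exact h3.le
    · rw [abs_of_pos (by linarith)]; linarith
  have h1 : (X : ℝ) ^ (16 - 1 / 8 : ℝ) ≤ K * T ^ (127 / 128 : ℝ) := by
    have e1 : (X : ℝ) ^ (16 - 1 / 8 : ℝ) = ((X : ℝ) ^ 16) ^ (127 / 128 : ℝ) := by
      rw [← Real.rpow_natCast, ← Real.rpow_mul hX0.le]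
      norm_num
    rw [e1]
    calc ((X : ℝ) ^ 16) ^ (127 / 128 : ℝ) ≤ (K * T) ^ (127 / 128 : ℝ) :=
          Real.rpow_le_rpow (by positivity) h16u (by norm_num)
      _ = K ^ (127 / 128 : ℝ) * T ^ (127 / 128 : ℝ) := Real.mul_rpow (by linarith) hTpos.le
      _ ≤ K * T ^ (127 / 128 : ℝ) := by
          have : K ^ (127 / 128 : ℝ) ≤ K := by
            calc K ^ (127 / 128 : ℝ) ≤ K ^ (1 : ℝ) :=
                  Real.rpow_le_rpow_of_exponent_le hK1 (by norm_num)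
              _ = K := Real.rpow_one K
          gcongr
  have h2 : Real.log ((X : ℝ) ^ 16 + 5) ≤ 2 * Real.log T := by
    have e1 : 2 * Real.log T = Real.log (T ^ 2) := by rw [Real.log_pow]; push_cast; ring
    rw [e1]
    apply Real.log_le_log (by positivity)
    nlinarith
  have hlogT : 0 ≤ Real.log T := Real.log_nonneg hT1
  have hlogX : 0 ≤ Real.log ((X : ℝ) ^ 16 + 5) := Real.log_nonneg (by nlinarith)
  calc (Z.card : ℝ) ≤ C * (X : ℝ) ^ (16 - 1 / 8 : ℝ) * Real.log ((X : ℝ) ^ 16 + 5) := h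
    _ ≤ C * (K * T ^ (127 / 128 : ℝ)) * (2 * Real.log T) := by gcongr
    _ = _ := by ring

theorem bz_zeta : BZ riemannZeta := by
  obtain ⟨C, hC, T1, hT1, hcard⟩ := bad_card
  refine ⟨1 / 200, by norm_num, ?_⟩
  have ev1 : ∀ᶠ T : ℝ in atTop, 3 * Real.log T ≤ T / 2 := by
    have h1 := Real.isLittleO_log_id_atTop.bound (show (0 : ℝ) < 1 / 6 by norm_num)
    filter_upwards [h1, eventually_ge_atTop 1] with T h2 h3
    rw [Real.norm_of_nonneg (Real.log_nonneg h3), id, Real.norm_of_nonneg (by linarith)] at h2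
    linarith
  have ev2 : ∀ᶠ T : ℝ in atTop, C * 12 * (Real.log T) ^ 2 ≤ T ^ (1 / 400 : ℝ) := by
    have h1 : (fun T : ℝ => (Real.log T) ^ 2) =o[atTop] fun T : ℝ => T ^ (1 / 400 : ℝ) :=
      (isLittleO_log_rpow_atTop (r := 1 / 800) (by positivity)).pow
        (by norm_num : 0 < 2) |>.trans_eventuallyEq
        (by
          filter_upwards [eventually_gt_atTop 0] with T hT
          rw [← Real.rpow_natCast, ← Real.rpow_mul hT.le]
          congr 1
          push_cast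
          norm_num)
    have h3 := h1.bound (show (0 : ℝ) < 1 / (C * 12) by positivity)
    filter_upwards [h3, eventually_ge_atTop 1] with T hT hT1
    rw [Real.norm_of_nonneg (by positivity), Real.norm_of_nonneg (by positivity)] at hT
    calc C * 12 * (Real.log T) ^ 2 ≤ C * 12 * (1 / (C * 12) * T ^ (1 / 400 : ℝ)) := by gcongr
      _ = T ^ (1 / 400 : ℝ) := by field_simp
  obtain ⟨T2, hT2⟩ := (ev1.and ev2).exists_forall_of_atTop
  refine ⟨max 10 (max T1 T2), fun T hT H hH0 hHT => ?_⟩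
  have hT10 : 10 ≤ T := (le_max_left _ _).trans hT
  have hTT1 : T1 ≤ T := ((le_max_left _ _).trans (le_max_right _ _)).trans hT
  obtain ⟨e1, e2⟩ := hT2 T (((le_max_right _ _).trans (le_max_right _ _)).trans hT)
  have hTpos : 0 < T := by linarith
  set L := Real.log T with hL
  have hL0 : 0 < L := Real.log_pos (by linarith)
  have hfin : (zset riemannZeta 1 (4 * T)).Finite :=
    zset_finite' good_zeta 1 (4 * T) (by norm_num)
  classical
  set Z : Finset ℂ := hfin.toFinset.filter (fun s => 11 / 16 < s.re) with hZ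
  have hZc := hcard T hTT1 Z fun s hs => by
    rw [hZ, Finset.mem_filter, Set.Finite.mem_toFinset] at hs
    obtain ⟨⟨h1, h2, h3, h4, h5⟩, h6⟩ := hs
    exact ⟨h5, h6, h3, h4⟩
  have hsub : {t : ℝ | t ∈ Set.Icc T (2 * T) ∧ ∃ s : ℂ, riemannZeta s = 0 ∧ 11 / 16 < s.re ∧
      s.re < 1 ∧ (|s.im - t| ≤ 3 * L ∨ |s.im - (t + H)| ≤ 3 * L)} ⊆
      ⋃ s ∈ Z, (Set.Icc (s.im - 3 * L) (s.im + 3 * L) ∪
        Set.Icc (s.im - H - 3 * L) (s.im - H + 3 * L)) := by
    intro t ht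
    obtain ⟨⟨ht1, ht2⟩, s, hs1, hs2, hs3, hs4⟩ := ht
    rw [Set.mem_iUnion₂]
    have hZm : 1 < s.im → s.im ≤ 4 * T → s ∈ Z := by
      intro h1 h2
      rw [hZ, Finset.mem_filter, Set.Finite.mem_toFinset]
      exact ⟨⟨by linarith, hs3, h1, h2, hs1⟩, hs2⟩
    rcases hs4 with h | h
    · obtain ⟨h1, h2⟩ := abs_le.1 h
      refine ⟨s, hZm (by linarith) (by linarith), Or.inl ⟨by linarith, by linarith⟩⟩
    · obtain ⟨h1, h2⟩ := abs_le.1 h
      refine ⟨s, hZm (by linarith) (by linarith), Or.inr ⟨by linarith, by linarith⟩⟩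
  have hone : ∀ s : ℂ, volume (Set.Icc (s.im - 3 * L) (s.im + 3 * L) ∪
        Set.Icc (s.im - H - 3 * L) (s.im - H + 3 * L)) ≤ ENNReal.ofReal (12 * L) := by
    intro s
    refine (measure_union_le _ _).trans ?_
    rw [Real.volume_Icc, Real.volume_Icc, ← ENNReal.ofReal_add (by linarith) (by linarith)]
    apply ENNReal.ofReal_le_ofReal
    linarith
  calc _ ≤ volume (⋃ s ∈ Z, (Set.Icc (s.im - 3 * L) (s.im + 3 * L) ∪
        Set.Icc (s.im - H - 3 * L) (s.im - H + 3 * L))) := measure_mono hsub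
    _ ≤ ∑ s ∈ Z, volume (Set.Icc (s.im - 3 * L) (s.im + 3 * L) ∪
        Set.Icc (s.im - H - 3 * L) (s.im - H + 3 * L)) := measure_biUnion_finset_le _ _
    _ ≤ ∑ s ∈ Z, ENNReal.ofReal (12 * L) := Finset.sum_le_sum fun s _ => hone s
    _ = ENNReal.ofReal (Z.card * (12 * L)) := by
        rw [Finset.sum_const, nsmul_eq_mul, ← ENNReal.ofReal_natCast,
          ← ENNReal.ofReal_mul (Nat.cast_nonneg _)]
    _ ≤ ENNReal.ofReal (T ^ (1 - 1 / 200 : ℝ)) := by
        apply ENNReal.ofReal_le_ofReal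
        calc (Z.card : ℝ) * (12 * L) ≤ (C * (T ^ (127 / 128 : ℝ) * L)) * (12 * L) := by gcongr
          _ = (C * 12 * L ^ 2) * T ^ (127 / 128 : ℝ) := by ring
          _ ≤ T ^ (1 / 400 : ℝ) * T ^ (127 / 128 : ℝ) := by gcongr
          _ = T ^ (1 / 400 + 127 / 128 : ℝ) := by rw [← Real.rpow_add hTpos]
          _ ≤ T ^ (1 - 1 / 200 : ℝ) := Real.rpow_le_rpow_of_exponent_le (by linarith) (by norm_num)

end H370.AS
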