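import Pool.Agent.H345R2.AS.Exc1
import Pool.Agent.H613R2.PairShort

/-! The exceptional set. -/

open Complex Filter Topology Set MeasureTheory
open scoped BigOperators ComplexConjugate

namespace H370.AS

open H295SI (Conv)
open H613SI (conv_cont conv_le)

lemma EE_cont2 (a : ℕ → ℂ) (Λ : ℝ) (X : ℕ) (σ : ℝ) :
    Continuous fun p : ℝ × ℝ => EE (bb a (Λ * p.1)) X σ p.2 := by
  unfold EE cf bb
  simp only [map_mul, Complex.conj_ofReal, map_inv₀]
  fun_prop

/-- the averaged square of the off-diagonal part -/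
noncomputable def QE (R : ℝ → ℝ) (a : ℕ → ℂ) (Λ : ℝ) (X : ℕ) (σ x : ℝ) : ℝ :=
  ∫ α in (0 : ℝ)..1, R α * ‖EE (bb a (Λ * α)) X σ x‖ ^ 2

lemma QE_aux {R : ℝ → ℝ} (hR : Conv R) (a : ℕ → ℂ) (Λ : ℝ) (X : ℕ) (σ : ℝ) :
    Continuous fun p : ℝ × ℝ => R p.1 * ‖EE (bb a (Λ * p.1)) X σ p.2‖ ^ 2 :=
  ((conv_cont hR).comp continuous_fst).mul ((EE_cont2 a Λ X σ).norm.pow 2)

lemma QE_cont {R : ℝ → ℝ} (hR : Conv R) (a : ℕ → ℂ) (Λ : ℝ) (X : ℕ) (σ : ℝ) :
    Continuous (QE R a Λ X σ) := by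
  unfold QE
  have h : Continuous (Function.uncurry fun x α : ℝ =>
      R α * ‖EE (bb a (Λ * α)) X σ x‖ ^ 2) :=
    (QE_aux hR a Λ X σ).comp (continuous_snd.prodMk continuous_fst)
  exact intervalIntegral.continuous_parametric_intervalIntegral_of_continuous' h _ _

lemma QE_nonneg {R : ℝ → ℝ} (hR : Conv R) (a : ℕ → ℂ) (Λ : ℝ) (X : ℕ) (σ x : ℝ) :
    0 ≤ QE R a Λ X σ x := by
  unfold QE
  apply intervalIntegral.integral_nonneg zero_le_one
  intro α _
  have := hR.nonneg α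
  positivity

lemma QE_swap {R : ℝ → ℝ} (hR : Conv R) (a : ℕ → ℂ) (Λ : ℝ) (X : ℕ) (σ A B : ℝ) :
    ∫ x in A..B, QE R a Λ X σ x =
      ∫ α in (0 : ℝ)..1, R α * ∫ x in A..B, ‖EE (bb a (Λ * α)) X σ x‖ ^ 2 := by
  have h1 : ∫ x in A..B, QE R a Λ X σ x =
      ∫ x in A..B, ∫ α in (0 : ℝ)..1, R α * ‖EE (bb a (Λ * α)) X σ x‖ ^ 2 := rfl
  rw [h1, intervalIntegral_intervalIntegral_swap]
  · apply intervalIntegral.integral_congr
    intro α _
    exact intervalIntegral.integral_const_mul _ _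
  · have h2 : IsCompact (Set.uIcc A B ×ˢ Set.uIcc (0 : ℝ) 1) := isCompact_uIcc.prod isCompact_uIcc
    have h3 : Continuous (Function.uncurry fun x α : ℝ =>
        R α * ‖EE (bb a (Λ * α)) X σ x‖ ^ 2) :=
      (QE_aux hR a Λ X σ).comp (continuous_snd.prodMk continuous_fst)
    exact (h3.continuousOn.integrableOn_compact h2).mono_set
      (Set.prod_mono Set.uIoc_subset_uIcc Set.uIoc_subset_uIcc)

/-- Markov's inequality for short averages -/
theorem markov (f : ℝ → ℝ) (hf : Continuous f) (hf0 : ∀ x, 0 ≤ f x) (T H w M : ℝ) (hT : 0 < T)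
    (hH : 0 < H) (hw : 0 ≤ w) (hwT : w ≤ T) (hHT : H + w ≤ 2 * T)
    (hM : ∫ x in (0 : ℝ)..(4 * T), f x ≤ M) :
    volume {t : ℝ | t ∈ Set.Icc T (2 * T) ∧ H ≤ ∫ x in (t - w)..(t + H + w), f x} ≤
      ENNReal.ofReal ((H + 2 * w) / H * M) := by
  set F : ℝ → ℝ := fun t => ∫ x in (t - w)..(t + H + w), f x with hF
  have hFeq : ∀ t, F t = ∫ y in (-w)..(H + w), f (t + y) := by
    intro t
    simp only [hF]
    rw [intervalIntegral.integral_comp_add_left (fun y => f y)]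
    congr 1 <;> ring
  have hFc : Continuous F := by
    have h1 : F = fun t => ∫ y in (-w)..(H + w), f (t + y) := funext hFeq
    rw [h1]
    exact intervalIntegral.continuous_parametric_intervalIntegral_of_continuous'
      (f := fun t y => f (t + y)) (hf.comp (by fun_prop)) _ _
  have hF0 : ∀ t, 0 ≤ F t := fun t =>
    intervalIntegral.integral_nonneg (by linarith) fun x _ => hf0 x
  have hM0 : 0 ≤ M := le_trans (intervalIntegral.integral_nonneg (by linarith) fun x _ => hf0 x) hM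
  have hInt : ∫ t in T..(2 * T), F t ≤ (H + 2 * w) * M := by
    have h1 : ∫ t in T..(2 * T), F t = ∫ y in (-w)..(H + w), ∫ t in T..(2 * T), f (t + y) := by
      simp_rw [hFeq]
      apply intervalIntegral_intervalIntegral_swap
      have h2 : IsCompact (Set.uIcc T (2 * T) ×ˢ Set.uIcc (-w) (H + w)) :=
        isCompact_uIcc.prod isCompact_uIcc
      have h3 : Continuous (Function.uncurry fun t y : ℝ => f (t + y)) := hf.comp (by fun_prop)
      exact (h3.continuousOn.integrableOn_compact h2).mono_set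
        (Set.prod_mono Set.uIoc_subset_uIcc Set.uIoc_subset_uIcc)
    rw [h1]
    have h4 : ∀ y ∈ Set.Icc (-w) (H + w), ∫ t in T..(2 * T), f (t + y) ≤ M := by
      intro y hy
      refine le_trans ?_ hM
      rw [intervalIntegral.integral_comp_add_right (fun t => f t)]
      apply intervalIntegral.integral_mono_interval
      · linarith [hy.1]
      · linarith
      · linarith [hy.2]
      · exact Eventually.of_forall fun x => hf0 x
      · exact hf.intervalIntegrable _ _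
    have h5 : Continuous fun y => ∫ t in T..(2 * T), f (t + y) :=
      intervalIntegral.continuous_parametric_intervalIntegral_of_continuous'
        (f := fun y t => f (t + y)) (hf.comp (by fun_prop)) _ _
    calc ∫ y in (-w)..(H + w), ∫ t in T..(2 * T), f (t + y) ≤ ∫ y in (-w)..(H + w), M :=
          intervalIntegral.integral_mono_on (by linarith) (h5.intervalIntegrable _ _)
            (continuous_const.intervalIntegrable _ _) h4
      _ = (H + 2 * w) * M := by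
          rw [intervalIntegral.integral_const, smul_eq_mul]; ring
  have hmk := mul_meas_ge_le_integral_of_nonneg (μ := volume.restrict (Set.Icc T (2 * T)))
    (f := F) (Eventually.of_forall hF0) hFc.integrableOn_Icc H
  have hmeas : MeasurableSet {t : ℝ | H ≤ F t} := measurableSet_le measurable_const hFc.measurable
  have hset : {t : ℝ | t ∈ Set.Icc T (2 * T) ∧ H ≤ F t} =
      {t : ℝ | H ≤ F t} ∩ Set.Icc T (2 * T) := by
    ext t
    simp only [Set.mem_ofPred_eq, Set.mem_inter_iff]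
    tauto
  have hfin : volume ({t : ℝ | H ≤ F t} ∩ Set.Icc T (2 * T)) ≠ ⊤ :=
    measure_ne_top_of_subset Set.inter_subset_right (by simp)
  have h6 : (volume.restrict (Set.Icc T (2 * T))).real {t : ℝ | H ≤ F t} =
      (volume ({t : ℝ | H ≤ F t} ∩ Set.Icc T (2 * T))).toReal := by
    rw [measureReal_def, Measure.restrict_apply hmeas]
  rw [h6, integral_Icc_eq_integral_Ioc, ← intervalIntegral.integral_of_le (by linarith)] at hmk
  rw [hset, ← ENNReal.ofReal_toReal hfin]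
  apply ENNReal.ofReal_le_ofReal
  rw [div_mul_eq_mul_div, le_div_iff₀ hH]
  linarith

/-- the exceptional set for the off-diagonal terms -/
theorem exc_set {R : ℝ → ℝ} (hR : Conv R) (η0 lam : ℝ) (hη0 : 0 < η0) (hη1 : η0 < 1) (hlam : 0 < lam)
    (hgap : 2 * lam < 1 + η0) : ∃ κ0 : ℝ, 0 < κ0 ∧ ∀ κ : ℝ, 0 < κ → κ ≤ κ0 →
    ∃ T0 : ℝ, 10 ≤ T0 ∧ ∀ T : ℝ, T0 ≤ T → ∀ H : ℝ, T ^ η0 ≤ H → H ≤ T →
      ∀ w : ℝ, 0 ≤ w → w ≤ H / 2 →
      ∀ a : ℕ → ℂ, (∀ n, ‖a n‖ ≤ ArithmeticFunction.vonMangoldt n) → ∀ Λ : ℝ,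
      volume {t : ℝ | t ∈ Set.Icc T (2 * T) ∧ H ≤ ∫ x in (t - w)..(t + H + w),
        QE R a Λ ⌊T ^ (lam + κ)⌋₊ (H * T ^ (-κ)) x} ≤ ENNReal.ofReal (T ^ (1 - κ)) := by
  obtain ⟨κ0, hκ0, hE⟩ := EE_small η0 lam hη0 hη1 hlam hgap
  refine ⟨κ0, hκ0, fun κ hκ hκκ => ?_⟩
  obtain ⟨T1, hT1, hE⟩ := hE κ hκ hκκ
  have ev : ∀ᶠ T : ℝ in atTop, 2 * R 0 ≤ T ^ κ :=
    (tendsto_rpow_atTop hκ).eventually_ge_atTop _
  obtain ⟨T2, hT2⟩ := ev.exists_forall_of_atTop
  refine ⟨max T1 T2, hT1.trans (le_max_left _ _), fun T hT H hH hHT w hw0 hw1 a ha Λ => ?_⟩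
  have hTT1 : T1 ≤ T := (le_max_left _ _).trans hT
  have e1 := hT2 T ((le_max_right _ _).trans hT)
  have hT0 : 0 < T := by linarith
  have hHpos : 0 < H := lt_of_lt_of_le (Real.rpow_pos_of_pos hT0 _) hH
  have hR0 : 0 ≤ R 0 := hR.nonneg 0
  set X : ℕ := ⌊T ^ (lam + κ)⌋₊ with hX
  set σ : ℝ := H * T ^ (-κ) with hσ
  have hM : ∫ x in (0 : ℝ)..(4 * T), QE R a Λ X σ x ≤ R 0 * T ^ (1 - 2 * κ) := by
    rw [QE_swap hR]
    have h1 : ∀ α ∈ Set.Icc (0 : ℝ) 1, R α * ∫ x in (0 : ℝ)..(4 * T),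
        ‖EE (bb a (Λ * α)) X σ x‖ ^ 2 ≤ R 0 * T ^ (1 - 2 * κ) := by
      intro α hα
      have h2 := hE T hTT1 H hH a ha (Λ * α)
      have h3 := conv_le hR α hα.1
      have h4 : 0 ≤ ∫ x in (0 : ℝ)..(4 * T), ‖EE (bb a (Λ * α)) X σ x‖ ^ 2 :=
        intervalIntegral.integral_nonneg (by linarith) fun x _ => by positivity
      gcongr
    have h5 : Continuous fun α : ℝ => R α * ∫ x in (0 : ℝ)..(4 * T),
        ‖EE (bb a (Λ * α)) X σ x‖ ^ 2 := by
      apply (conv_cont hR).mul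
      have h6 : Continuous (Function.uncurry fun α x : ℝ => ‖EE (bb a (Λ * α)) X σ x‖ ^ 2) :=
        (EE_cont2 a Λ X σ).norm.pow 2
      exact intervalIntegral.continuous_parametric_intervalIntegral_of_continuous' h6 _ _
    calc _ ≤ ∫ α in (0 : ℝ)..1, R 0 * T ^ (1 - 2 * κ) :=
          intervalIntegral.integral_mono_on zero_le_one (h5.intervalIntegrable _ _)
            (continuous_const.intervalIntegrable _ _) h1
      _ = _ := by simp
  refine (markov (QE R a Λ X σ) (QE_cont hR a Λ X σ) (QE_nonneg hR a Λ X σ) T H w _ hT0 hHpos hw0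
    (by linarith) (by linarith) hM).trans ?_
  apply ENNReal.ofReal_le_ofReal
  have h6 : (H + 2 * w) / H ≤ 2 := by
    rw [div_le_iff₀ hHpos]; linarith
  have h7 : 0 ≤ R 0 * T ^ (1 - 2 * κ) := by positivity
  calc (H + 2 * w) / H * (R 0 * T ^ (1 - 2 * κ)) ≤ 2 * (R 0 * T ^ (1 - 2 * κ)) := by gcongr
    _ = (2 * R 0) * T ^ (1 - 2 * κ) := by ring
    _ ≤ T ^ κ * T ^ (1 - 2 * κ) := by gcongr
    _ = T ^ (1 - κ) := by rw [← Real.rpow_add hT0]; congr 1; ring

end H370.AS
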