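import Pool.Agent.H345R2.AS.BZ

/-! Almost all short intervals: final form. -/

open Complex Filter Topology Set MeasureTheory
open scoped BigOperators ComplexConjugate

namespace H370.AS

open H295SI

lemma cc_cont (lam : ℝ) (h0 : 0 < lam) (h1 : lam ≤ 1) : ContinuousAt H295SI.cc lam := by
  have hs2 : (1 : ℝ) < Real.sqrt 2 := Real.one_lt_sqrt_two
  have hx0 : 0 < lam / Real.sqrt 2 := by positivity
  have hx1 : lam / Real.sqrt 2 < 1 := by
    rw [div_lt_one (by linarith)]; linarith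
  have hsin : Real.sin (lam / Real.sqrt 2) ≠ 0 :=
    (Real.sin_pos_of_pos_of_lt_pi hx0 (by linarith [Real.pi_gt_three])).ne'
  have h2 : H295SI.cc = fun h : ℝ => h / 2 +
      Real.cos (h / Real.sqrt 2) / Real.sin (h / Real.sqrt 2) / Real.sqrt 2 := by
    funext h
    unfold H295SI.cc
    rw [Real.cot_eq_cos_div_sin]
  rw [h2]
  refine ContinuousAt.add (by fun_prop) (ContinuousAt.div_const ?_ _)
  exact ContinuousAt.div (by fun_prop) (by fun_prop) hsin

/-- almost all short intervals contain a positive proportion of simple critical zeros -/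
theorem almost_all {F : ℂ → ℂ} (hF : GoodL F) (hB : BZ F) (η0 lam ε : ℝ) (hη0 : 0 < η0)
    (hη1 : η0 < 1) (hlam : 0 < lam) (hgap : 2 * lam ≤ 1 + η0) (hgap2 : 3 * lam ≤ 8 * η0)
    (hε : 0 < ε) : ∃ δ : ℝ, 0 < δ ∧ ∃ T0 : ℝ, 10 ≤ T0 ∧ ∀ T : ℝ, T0 ≤ T → ∀ H : ℝ,
      T ^ η0 ≤ H → H ≤ T / 8 →
      volume {t : ℝ | t ∈ Set.Icc T (2 * T) ∧
        ¬ ((2 - H295SI.cc lam - ε) * (NN F t (t + H) : ℝ) ≤ Ns F t (t + H) ∧
          ((3 - H295SI.cc lam) / 2 - ε) * (NN F t (t + H) : ℝ) ≤ Nd F t (t + H))} ≤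
        ENNReal.ofReal (T ^ (1 - δ)) := by
  have hlam1 : lam ≤ 1 := by linarith
  have hc := cc_cont lam hlam hlam1
  have h1 : ∀ᶠ x : ℝ in 𝓝[<] lam, (0 < x ∧ x < lam) ∧ H295SI.cc x < H295SI.cc lam + ε / 2 := by
    have e1 : ∀ᶠ x : ℝ in 𝓝[<] lam, 0 < x := nhdsWithin_le_nhds (lt_mem_nhds hlam)
    have e2 : ∀ᶠ x : ℝ in 𝓝[<] lam, x < lam := self_mem_nhdsWithin
    have e3 : ∀ᶠ x : ℝ in 𝓝[<] lam, H295SI.cc x < H295SI.cc lam + ε / 2 :=
      nhdsWithin_le_nhds (hc.eventually (gt_mem_nhds (by linarith)))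
    exact (e1.and e2).and e3
  obtain ⟨x, ⟨hx0, hx1⟩, hx2⟩ := h1.exists
  obtain ⟨δ, hδ, T0, hT0, h⟩ := almost_strict hF hB η0 x (ε / 2) hη0 hη1 hx0 (by linarith)
    (by linarith) (by linarith)
  refine ⟨δ, hδ, T0, hT0, fun T hT H hH1 hH2 => (measure_mono ?_).trans (h T hT H hH1 hH2)⟩
  rintro t ⟨ht1, ht2⟩
  refine ⟨ht1, fun hcon => ht2 ?_⟩
  obtain ⟨h3, h4⟩ := hcon
  have hN0 : (0 : ℝ) ≤ NN F t (t + H) := Nat.cast_nonneg _
  constructor
  · exact (mul_le_mul_of_nonneg_right (by linarith) hN0).trans h3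
  · exact (mul_le_mul_of_nonneg_right (by linarith) hN0).trans h4

lemma sin_sub_nonneg {x : ℝ} (h0 : 0 ≤ x) (h1 : x ≤ 1) : x * Real.cos x ≤ Real.sin x := by
  rcases h0.eq_or_lt with rfl | h0
  · simp
  have hpi := Real.pi_gt_three
  have h2 := Real.lt_tan h0 (by linarith)
  have hc : 0 < Real.cos x := Real.cos_pos_of_mem_Ioo ⟨by linarith, by linarith⟩
  rw [Real.tan_eq_sin_div_cos, lt_div_iff₀ hc] at h2
  exact h2.le

lemma cot_aux {x : ℝ} (h0 : 0 ≤ x) (h1 : x ≤ 1) :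
    x * Real.cos x ≤ (1 - x ^ 2 / 3) * Real.sin x := by
  have hmono : MonotoneOn (fun x : ℝ => (1 - x ^ 2 / 3) * Real.sin x - x * Real.cos x)
      (Set.Icc 0 1) := by
    have hd : ∀ x : ℝ, HasDerivAt (fun x : ℝ => (1 - x ^ 2 / 3) * Real.sin x - x * Real.cos x)
        (x / 3 * (Real.sin x - x * Real.cos x)) x := by
      intro x
      have h1 : HasDerivAt (fun x : ℝ => 1 - x ^ 2 / 3) (-(2 * x / 3)) x := by
        have := ((hasDerivAt_id x).fun_pow 2).div_const 3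
        have h2 := this.const_sub 1
        refine h2.congr_deriv ?_
        simp
      have h3 := (h1.mul (Real.hasDerivAt_sin x)).sub ((hasDerivAt_id x).mul (Real.hasDerivAt_cos x))
      refine h3.congr_deriv ?_
      simp only [id]
      ring
    apply monotoneOn_of_deriv_nonneg (convex_Icc 0 1)
    · exact fun x _ => (hd x).continuousAt.continuousWithinAt
    · exact fun x _ => (hd x).differentiableAt.differentiableWithinAt
    · intro x hx
      rw [interior_Icc] at hx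
      rw [(hd x).deriv]
      have := sin_sub_nonneg hx.1.le hx.2.le
      have h3 := hx.1
      apply mul_nonneg (by linarith) (by linarith)
  have h2 := hmono (show (0 : ℝ) ∈ Set.Icc (0 : ℝ) 1 by simp) (show x ∈ Set.Icc (0 : ℝ) 1 from ⟨h0, h1⟩) h0
  simp only at h2
  norm_num at h2
  linarith

/-- `c(h) ≤ 1/h + h/3` (after helper295) -/
theorem cc_le (h : ℝ) (h0 : 0 < h) (h1 : h ≤ 1) : H295SI.cc h ≤ 1 / h + h / 3 := by
  have hs : (0 : ℝ) < Real.sqrt 2 := by positivity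
  have hs2 : Real.sqrt 2 ^ 2 = 2 := Real.sq_sqrt (by norm_num)
  have hs1 : 1 < Real.sqrt 2 := Real.one_lt_sqrt_two
  set x := h / Real.sqrt 2 with hx
  have hx0 : 0 < x := by positivity
  have hx1 : x ≤ 1 := by
    rw [hx, div_le_one hs]; linarith
  have hpi := Real.pi_gt_three
  have hsin : 0 < Real.sin x := Real.sin_pos_of_pos_of_lt_pi hx0 (by linarith)
  have h2 := cot_aux hx0.le hx1
  have h3 : Real.cot x ≤ (1 - x ^ 2 / 3) / x := by
    rw [Real.cot_eq_cos_div_sin, div_le_div_iff₀ hsin hx0]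
    linarith
  unfold H295SI.cc
  rw [← hx]
  have h4 : Real.cot x / Real.sqrt 2 ≤ (1 - x ^ 2 / 3) / x / Real.sqrt 2 :=
    div_le_div_of_nonneg_right h3 hs.le
  have h5 : (1 - x ^ 2 / 3) / x / Real.sqrt 2 = 1 / h - h / 6 := by
    rw [hx, div_pow, hs2]
    field_simp
    ring
  linarith

end H370.AS
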