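import Mathlib

/-! Counting nearly equal ratios. -/

open scoped BigOperators

namespace H370.AS

/-- the square `[1, X]²` -/
def sq (X : ℕ) : Finset (ℕ × ℕ) := Finset.Icc 1 X ×ˢ Finset.Icc 1 X

lemma mem_sq {X : ℕ} {p : ℕ × ℕ} : p ∈ sq X ↔ (1 ≤ p.1 ∧ p.1 ≤ X) ∧ (1 ≤ p.2 ∧ p.2 ≤ X) := by
  simp [sq]

/-- for fixed `v0` the number of pairs with product within `k0` of `v0` -/
lemma count_near (X k0 D v0 : ℕ) (hD : ∀ v : ℕ, 1 ≤ v → v ≤ X ^ 2 → v.divisors.card ≤ D) :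
    ((sq X).filter (fun q => v0 ≤ q.1 * q.2 + k0 ∧ q.1 * q.2 ≤ v0 + k0)).card ≤
      D * (2 * k0 + 1) := by
  classical
  set s := (sq X).filter (fun q => v0 ≤ q.1 * q.2 + k0 ∧ q.1 * q.2 ≤ v0 + k0) with hs
  have h1 : s.card ≤ D * (s.image (fun q : ℕ × ℕ => q.1 * q.2)).card := by
    apply Finset.card_le_mul_card_image
    intro v hv
    rw [Finset.mem_image] at hv
    obtain ⟨q, hq, rfl⟩ := hv
    rw [hs, Finset.mem_filter, mem_sq] at hq
    obtain ⟨⟨⟨a1, a2⟩, a3, a4⟩, -⟩ := hq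
    have hv1 : 1 ≤ q.1 * q.2 := Nat.mul_le_mul a1 a3
    have hv2 : q.1 * q.2 ≤ X ^ 2 := by
      rw [pow_two]; exact Nat.mul_le_mul a2 a4
    refine le_trans ?_ (hD _ hv1 hv2)
    apply Finset.card_le_card_of_injOn (fun p : ℕ × ℕ => p.1)
    · intro p hp
      simp only [Finset.coe_filter, Set.mem_setOf_eq] at hp
      simp only [Finset.mem_coe, Nat.mem_divisors]
      exact ⟨⟨p.2, hp.2.symm⟩, by omega⟩
    · intro p hp p' hp' hpp
      simp only [Finset.coe_filter, Set.mem_setOf_eq] at hp hp'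
      simp only at hpp
      have hp1 := hp.1
      rw [hs, Finset.mem_filter, mem_sq] at hp1
      have h2 : p.1 * p.2 = p.1 * p'.2 := by
        rw [hp.2, hpp, hp'.2]
      have h3 : p.2 = p'.2 := Nat.eq_of_mul_eq_mul_left (by omega) h2
      exact Prod.ext hpp h3
  have h2 : (s.image (fun q : ℕ × ℕ => q.1 * q.2)).card ≤ 2 * k0 + 1 := by
    have h3 : s.image (fun q : ℕ × ℕ => q.1 * q.2) ⊆ Finset.Icc (v0 - k0) (v0 + k0) := by
      intro v hv
      rw [Finset.mem_image] at hv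
      obtain ⟨q, hq, rfl⟩ := hv
      rw [hs, Finset.mem_filter] at hq
      rw [Finset.mem_Icc]
      omega
    refine (Finset.card_le_card h3).trans ?_
    rw [Nat.card_Icc]
    omega
  exact h1.trans (Nat.mul_le_mul_left D h2)

lemma exp_le_two {x : ℝ} (h0 : 0 ≤ x) (h1 : x ≤ 1) : Real.exp x ≤ 1 + 2 * x := by
  have h := Real.abs_exp_sub_one_sub_id_le (x := x) (by rw [abs_of_nonneg h0]; exact h1)
  have h2 := (abs_le.mp h).2
  nlinarith

lemma ratio_close {a b : ℝ} {ν B : ℝ} (ha : 0 < a) (hb : 0 < b) (haB : a ≤ B) (hbB : b ≤ B)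
    (hν1 : ν ≤ 1) (h : |Real.log a - Real.log b| ≤ ν) : |a - b| ≤ 2 * ν * B := by
  have hν0 : 0 ≤ ν := (abs_nonneg _).trans h
  have key : ∀ x y : ℝ, 0 < x → 0 < y → y ≤ B → Real.log x - Real.log y ≤ ν →
      x - y ≤ 2 * ν * B := by
    intro x y hx hy hyB hl
    have h1 : x / y ≤ 1 + 2 * ν := by
      refine le_trans ?_ (exp_le_two hν0 hν1)
      rw [← Real.log_div hx.ne' hy.ne'] at hl
      exact (Real.log_le_iff_le_exp (by positivity)).mp hl
    rw [div_le_iff₀ hy] at h1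
    have h2 : 2 * ν * y ≤ 2 * ν * B := by gcongr
    linarith
  rw [abs_le] at h ⊢
  have h1 := key a b ha hb hbB h.2
  have h2 := key b a hb ha haB (by linarith [h.1])
  constructor <;> linarith

/-- the weight -/
noncomputable def wt (p : (ℕ × ℕ) × (ℕ × ℕ)) : ℝ :=
  1 / (Real.sqrt p.1.1 * Real.sqrt p.1.2 * (Real.sqrt p.2.1 * Real.sqrt p.2.2))

lemma wt_nonneg (p : (ℕ × ℕ) × (ℕ × ℕ)) : 0 ≤ wt p := by unfold wt; positivity

/-- the logarithmic difference -/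
noncomputable def ld (p : ℕ × ℕ) : ℝ := Real.log p.1 - Real.log p.2

open Classical in
/-- the close quadruples -/
noncomputable def close (X : ℕ) (ω ν : ℝ) : Finset ((ℕ × ℕ) × (ℕ × ℕ)) :=
  (sq X ×ˢ sq X).filter (fun p => p.1.1 ≠ p.1.2 ∧ p.2.1 ≠ p.2.2 ∧ |ld p.1| ≤ ω ∧ |ld p.2| ≤ ω ∧
    |ld p.1 - ld p.2| ≤ ν)

open Classical in
/-- the close quadruples of positive sign -/
noncomputable def closeP (X : ℕ) (ω ν : ℝ) : Finset ((ℕ × ℕ) × (ℕ × ℕ)) :=
  (sq X ×ˢ sq X).filter (fun p => p.1.2 < p.1.1 ∧ p.2.2 < p.2.1 ∧ |ld p.1| ≤ ω ∧ |ld p.2| ≤ ω ∧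
    |ld p.1 - ld p.2| ≤ ν)

lemma harm (X : ℕ) : ∑ k ∈ Finset.Icc 1 X, 1 / (k : ℝ) ≤ 1 + Real.log X := by
  have h := harmonic_le_one_add_log X
  rw [harmonic_eq_sum_Icc] at h
  push_cast at h
  simpa [one_div] using h

theorem closeP_sum (X D : ℕ) (ω ν : ℝ) (hω0 : 0 ≤ ω) (hω : ω ≤ 1) (hν0 : 0 ≤ ν) (hν : ν ≤ 1)
    (hD : ∀ v : ℕ, 1 ≤ v → v ≤ X ^ 2 → v.divisors.card ≤ D) :
    ∑ p ∈ closeP X ω ν, wt p ≤
      2 * ω * (D * (4 * ν * X ^ 2 + 1)) * (1 + Real.log X) ^ 2 := by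
  classical
  set k0 : ℕ := ⌊2 * ν * (X : ℝ) ^ 2⌋₊ with hk0
  have hk0le : (k0 : ℝ) ≤ 2 * ν * (X : ℝ) ^ 2 := Nat.floor_le (by positivity)
  -- the map
  set φ : (ℕ × ℕ) × (ℕ × ℕ) → (ℕ × ℕ) × (ℕ × ℕ) :=
    fun p => ((p.1.1 - p.1.2, p.2.2), (p.1.2, p.2.1 - p.2.2)) with hφ
  set W : (ℕ × ℕ) × (ℕ × ℕ) → ℝ := fun q => 2 * ω * (1 / (q.1.1 : ℝ) * (1 / (q.1.2 : ℝ))) with hW
  set Tt : Finset ((ℕ × ℕ) × (ℕ × ℕ)) := (sq X ×ˢ sq X).filter (fun q =>
    q.1.1 * q.1.2 ≤ q.2.1 * q.2.2 + k0 ∧ q.2.1 * q.2.2 ≤ q.1.1 * q.1.2 + k0) with hTt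
  have hmem : ∀ p ∈ closeP X ω ν, φ p ∈ Tt ∧ wt p ≤ W (φ p) := by
    rintro ⟨⟨m, n⟩, ⟨m', n'⟩⟩ hp
    unfold closeP at hp
    rw [Finset.mem_filter, Finset.mem_product, mem_sq, mem_sq] at hp
    obtain ⟨⟨⟨⟨a1, a2⟩, a3, a4⟩, ⟨a5, a6⟩, a7, a8⟩, b1, b2, b3, b4, b5⟩ := hp
    simp only at a1 a2 a3 a4 a5 a6 a7 a8 b1 b2 b3 b4 b5
    obtain ⟨h, rfl⟩ := Nat.exists_eq_add_of_lt b1
    obtain ⟨h', rfl⟩ := Nat.exists_eq_add_of_lt b2
    have hn0 : (0 : ℝ) < n := by exact_mod_cast a3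
    have hn'0 : (0 : ℝ) < n' := by exact_mod_cast a7
    have hm0 : (0 : ℝ) < (n + h + 1 : ℕ) := by positivity
    have hm'0 : (0 : ℝ) < (n' + h' + 1 : ℕ) := by positivity
    have hnX : (n : ℝ) ≤ X := by exact_mod_cast a4
    have hn'X : (n' : ℝ) ≤ X := by exact_mod_cast a8
    have hmX : ((n + h + 1 : ℕ) : ℝ) ≤ X := by exact_mod_cast a2
    have hm'X : ((n' + h' + 1 : ℕ) : ℝ) ≤ X := by exact_mod_cast a6
    have e1 : n + h + 1 - n = h + 1 := by omega
    have e2 : n' + h' + 1 - n' = h' + 1 := by omega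
    -- closeness of the products
    have hc : |((n + h + 1 : ℕ) : ℝ) * n' - n * ((n' + h' + 1 : ℕ) : ℝ)| ≤
        2 * ν * ((X : ℝ) ^ 2) := by
      apply ratio_close (by positivity) (by positivity) _ _ hν
      · rw [Real.log_mul hm0.ne' hn'0.ne', Real.log_mul hn0.ne' hm'0.ne']
        unfold ld at b5
        simp only at b5
        convert b5 using 2
        ring
      · rw [pow_two]; gcongr
      · rw [pow_two]; gcongr
    have hc2 : |(((h + 1) * n' : ℕ) : ℝ) - ((n * (h' + 1) : ℕ) : ℝ)| ≤ 2 * ν * ((X : ℝ) ^ 2) := by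
      convert hc using 2
      push_cast
      ring
    have hc3 := abs_le.mp hc2
    constructor
    · rw [hTt, Finset.mem_filter, Finset.mem_product, mem_sq, mem_sq]
      simp only [hφ, e1, e2]
      refine ⟨⟨⟨⟨by omega, by omega⟩, a7, a8⟩, ⟨a3, a4⟩, by omega, by omega⟩, ?_, ?_⟩
      · have h1 : (((h + 1) * n' - n * (h' + 1) : ℕ) : ℝ) ≤ 2 * ν * (X : ℝ) ^ 2 := by
          rcases le_total (n * (h' + 1)) ((h + 1) * n') with h2 | h2
          · rw [Nat.cast_sub h2]; exact hc3.2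
          · rw [Nat.sub_eq_zero_of_le h2, Nat.cast_zero]; positivity
        have h2 := Nat.le_floor h1
        omega
      · have h1 : ((n * (h' + 1) - (h + 1) * n' : ℕ) : ℝ) ≤ 2 * ν * (X : ℝ) ^ 2 := by
          rcases le_total ((h + 1) * n') (n * (h' + 1)) with h2 | h2
          · rw [Nat.cast_sub h2]; linarith [hc3.1]
          · rw [Nat.sub_eq_zero_of_le h2, Nat.cast_zero]; positivity
        have h2 := Nat.le_floor h1
        omega
    · simp only [hφ, hW, e1, e2]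
      unfold wt
      simp only
      have hh : ((h + 1 : ℕ) : ℝ) ≤ 2 * ω * n := by
        have h1 : ((n + h + 1 : ℕ) : ℝ) / n ≤ 1 + 2 * ω := by
          refine le_trans ?_ (exp_le_two hω0 hω)
          unfold ld at b3
          simp only at b3
          have h2 := (abs_le.mp b3).2
          rw [← Real.log_div hm0.ne' hn0.ne'] at h2
          exact (Real.log_le_iff_le_exp (by positivity)).mp h2
        rw [div_le_iff₀ hn0] at h1
        push_cast at h1 ⊢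
        linarith
      have h1n : 1 / (n : ℝ) ≤ 2 * ω * (1 / ((h + 1 : ℕ) : ℝ)) := by
        rw [mul_one_div, div_le_div_iff₀ hn0 (by positivity)]
        linarith
      have hs1 : (n : ℝ) ≤ Real.sqrt ((n + h + 1 : ℕ) : ℝ) * Real.sqrt n := by
        rw [← Real.sqrt_mul hm0.le]
        apply Real.le_sqrt_of_sq_le
        push_cast
        nlinarith
      have hs2 : (n' : ℝ) ≤ Real.sqrt ((n' + h' + 1 : ℕ) : ℝ) * Real.sqrt n' := by
        rw [← Real.sqrt_mul hm'0.le]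
        apply Real.le_sqrt_of_sq_le
        push_cast
        nlinarith
      calc 1 / (Real.sqrt ((n + h + 1 : ℕ) : ℝ) * Real.sqrt n *
            (Real.sqrt ((n' + h' + 1 : ℕ) : ℝ) * Real.sqrt n')) ≤ 1 / ((n : ℝ) * n') := by
            apply one_div_le_one_div_of_le (by positivity)
            gcongr
        _ = 1 / (n : ℝ) * (1 / (n' : ℝ)) := by rw [one_div_mul_one_div]
        _ ≤ 2 * ω * (1 / ((h + 1 : ℕ) : ℝ)) * (1 / (n' : ℝ)) := by gcongr
        _ = _ := by ring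
  have hinj : ∀ p ∈ closeP X ω ν, ∀ p' ∈ closeP X ω ν, φ p = φ p' → p = p' := by
    rintro ⟨⟨m, n⟩, ⟨m', n'⟩⟩ hp ⟨⟨k, l⟩, ⟨k', l'⟩⟩ hp' hpp
    unfold closeP at hp hp'
    rw [Finset.mem_filter] at hp hp'
    have b1 := hp.2.1
    have b2 := hp.2.2.1
    have c1 := hp'.2.1
    have c2 := hp'.2.2.1
    simp only [hφ, Prod.mk.injEq] at hpp
    simp only at b1 b2 c1 c2
    simp only [Prod.mk.injEq]
    omega
  have hW0 : ∀ q, 0 ≤ W q := by intro q; simp only [hW]; positivity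
  calc ∑ p ∈ closeP X ω ν, wt p ≤ ∑ p ∈ closeP X ω ν, W (φ p) :=
        Finset.sum_le_sum fun p hp => (hmem p hp).2
    _ = ∑ q ∈ (closeP X ω ν).image φ, W q := by
        rw [Finset.sum_image]
        intro p hp p' hp' h
        exact hinj p hp p' hp' h
    _ ≤ ∑ q ∈ Tt, W q := by
        apply Finset.sum_le_sum_of_subset_of_nonneg
        · intro q hq
          rw [Finset.mem_image] at hq
          obtain ⟨p, hp, rfl⟩ := hq
          exact (hmem p hp).1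
        · intro q _ _
          exact hW0 q
    _ = ∑ a ∈ sq X, ∑ b ∈ (sq X).filter (fun q =>
          a.1 * a.2 ≤ q.1 * q.2 + k0 ∧ q.1 * q.2 ≤ a.1 * a.2 + k0), W (a, b) := by
        rw [hTt, Finset.sum_filter, Finset.sum_product]
        refine Finset.sum_congr rfl fun a _ => ?_
        rw [Finset.sum_filter]
    _ ≤ ∑ a ∈ sq X, 2 * ω * (1 / (a.1 : ℝ) * (1 / (a.2 : ℝ))) * (D * (2 * k0 + 1)) := by
        refine Finset.sum_le_sum fun a _ => ?_
        have h1 : ∀ b ∈ (sq X).filter (fun q : ℕ × ℕ =>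
          a.1 * a.2 ≤ q.1 * q.2 + k0 ∧ q.1 * q.2 ≤ a.1 * a.2 + k0), W (a, b) =
            2 * ω * (1 / (a.1 : ℝ) * (1 / (a.2 : ℝ))) := fun b _ => rfl
        rw [Finset.sum_congr rfl h1, Finset.sum_const, nsmul_eq_mul, mul_comm]
        apply mul_le_mul_of_nonneg_left _ (by positivity)
        exact_mod_cast count_near X k0 D (a.1 * a.2) hD
    _ = 2 * ω * (D * (2 * k0 + 1)) * ((∑ k ∈ Finset.Icc 1 X, 1 / (k : ℝ)) *
          ∑ k ∈ Finset.Icc 1 X, 1 / (k : ℝ)) := by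
        rw [Finset.sum_mul_sum, sq, Finset.sum_product, Finset.mul_sum]
        refine Finset.sum_congr rfl fun x _ => ?_
        rw [Finset.mul_sum]
        refine Finset.sum_congr rfl fun y _ => ?_
        ring
    _ ≤ 2 * ω * (D * (4 * ν * X ^ 2 + 1)) * (1 + Real.log X) ^ 2 := by
        have h1 := harm X
        have h2 : 0 ≤ ∑ k ∈ Finset.Icc 1 X, 1 / (k : ℝ) :=
          Finset.sum_nonneg fun _ _ => by positivity
        rw [pow_two (1 + Real.log X)]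
        have h3 : (2 * (k0 : ℝ) + 1) ≤ 4 * ν * X ^ 2 + 1 := by linarith
        have h4 : 0 ≤ 1 + Real.log X := h2.trans h1
        gcongr

theorem close_sum (X D : ℕ) (ω ν : ℝ) (hω0 : 0 ≤ ω) (hω : ω ≤ 1) (hν0 : 0 ≤ ν) (hν : ν ≤ 1)
    (hνX : ν * X < 1) (hD : ∀ v : ℕ, 1 ≤ v → v ≤ X ^ 2 → v.divisors.card ≤ D) :
    ∑ p ∈ close X ω ν, wt p ≤
      4 * ω * (D * (4 * ν * X ^ 2 + 1)) * (1 + Real.log X) ^ 2 := by
  classical
  have hP := closeP_sum X D ω ν hω0 hω hν0 hν hD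
  set τ : (ℕ × ℕ) × (ℕ × ℕ) → (ℕ × ℕ) × (ℕ × ℕ) :=
    fun p => ((p.1.2, p.1.1), (p.2.2, p.2.1)) with hτ
  have hgap : ∀ m n : ℕ, 1 ≤ n → n < m → m ≤ X → 1 / (X : ℝ) ≤ Real.log m - Real.log n := by
    intro m n hn hnm hm
    have hn0 : (0 : ℝ) < n := by exact_mod_cast hn
    have hm0 : (0 : ℝ) < m := by exact_mod_cast (by omega : 0 < m)
    have hX0 : (0 : ℝ) < X := by exact_mod_cast (by omega : 0 < X)
    rw [← Real.log_div hm0.ne' hn0.ne']
    have h1 := Real.one_sub_inv_le_log_of_pos (show (0 : ℝ) < m / n by positivity)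
    refine le_trans ?_ h1
    rw [inv_div]
    have h2 : (n : ℝ) + 1 ≤ m := by exact_mod_cast hnm
    have h3 : (m : ℝ) ≤ X := by exact_mod_cast hm
    have h4 : 1 - (n : ℝ) / m = (m - n) / m := by field_simp
    rw [h4, div_le_div_iff₀ hX0 hm0]
    nlinarith
  have hsub : close X ω ν ⊆ closeP X ω ν ∪ (closeP X ω ν).image τ := by
    rintro ⟨⟨m, n⟩, ⟨m', n'⟩⟩ hp
    unfold close at hp
    rw [Finset.mem_filter, Finset.mem_product, mem_sq, mem_sq] at hp
    obtain ⟨⟨⟨⟨a1, a2⟩, a3, a4⟩, ⟨a5, a6⟩, a7, a8⟩, b1, b2, b3, b4, b5⟩ := hp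
    simp only at a1 a2 a3 a4 a5 a6 a7 a8 b1 b2 b3 b4 b5
    rw [Finset.mem_union]
    unfold ld at b3 b4 b5
    simp only at b3 b4 b5
    have hX0 : (0 : ℝ) < X := by exact_mod_cast (by omega : 0 < X)
    have hν1 : ν < 1 / X := by rw [lt_div_iff₀ hX0]; exact hνX
    rcases Nat.lt_or_gt_of_ne b1 with c1 | c1
    · rcases Nat.lt_or_gt_of_ne b2 with c2 | c2
      · right
        rw [Finset.mem_image]
        refine ⟨((n, m), (n', m')), ?_, rfl⟩
        unfold closeP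
        rw [Finset.mem_filter, Finset.mem_product, mem_sq, mem_sq]
        refine ⟨⟨⟨⟨a3, a4⟩, a1, a2⟩, ⟨a7, a8⟩, a5, a6⟩, c1, c2, ?_, ?_, ?_⟩
        · unfold ld; simp only; rw [abs_sub_comm]; exact b3
        · unfold ld; simp only; rw [abs_sub_comm]; exact b4
        · unfold ld
          simp only
          rw [abs_sub_comm]
          convert b5 using 2
          ring
      · exfalso
        have h1 := hgap n m a1 c1 a4
        have h2 := hgap m' n' a7 c2 a6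
        have h3 := (abs_le.mp b5).1
        have h4 : 0 < 1 / (X : ℝ) := by positivity
        linarith
    · rcases Nat.lt_or_gt_of_ne b2 with c2 | c2
      · exfalso
        have h1 := hgap m n a3 c1 a2
        have h2 := hgap n' m' a5 c2 a8
        have h3 := (abs_le.mp b5).2
        have h4 : 0 < 1 / (X : ℝ) := by positivity
        linarith
      · left
        unfold closeP
        rw [Finset.mem_filter, Finset.mem_product, mem_sq, mem_sq]
        exact ⟨⟨⟨⟨a1, a2⟩, a3, a4⟩, ⟨a5, a6⟩, a7, a8⟩, c1, c2, b3, b4, b5⟩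
  have hwτ : ∀ p, wt (τ p) = wt p := by
    intro p
    unfold wt
    simp only [hτ]
    rw [mul_comm (Real.sqrt p.1.2), mul_comm (Real.sqrt p.2.2)]
  calc ∑ p ∈ close X ω ν, wt p ≤ ∑ p ∈ closeP X ω ν ∪ (closeP X ω ν).image τ, wt p :=
        Finset.sum_le_sum_of_subset_of_nonneg hsub fun p _ _ => wt_nonneg p
    _ ≤ ∑ p ∈ closeP X ω ν, wt p + ∑ p ∈ (closeP X ω ν).image τ, wt p := by
        rw [← Finset.sum_union_inter]
        have : 0 ≤ ∑ p ∈ closeP X ω ν ∩ (closeP X ω ν).image τ, wt p :=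
          Finset.sum_nonneg fun p _ => wt_nonneg p
        linarith
    _ = ∑ p ∈ closeP X ω ν, wt p + ∑ p ∈ closeP X ω ν, wt p := by
        congr 1
        rw [Finset.sum_image]
        · exact Finset.sum_congr rfl fun p _ => hwτ p
        · rintro ⟨⟨m, n⟩, ⟨m', n'⟩⟩ _ ⟨⟨k, l⟩, ⟨k', l'⟩⟩ _ hpp
          simp only [hτ, Prod.mk.injEq] at hpp
          simp only [Prod.mk.injEq]
          omega
    _ ≤ _ := by linarith

end H370.AS
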