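import Mathlib

/-! Gaussian averages of exponential sums. -/

open Complex Filter Topology Set MeasureTheory
open scoped BigOperators ComplexConjugate

namespace H370.AS

/-- the Gaussian density -/
noncomputable def Gs (σ y : ℝ) : ℝ :=
  1 / (σ * Real.sqrt (2 * Real.pi)) * Real.exp (-y ^ 2 / (2 * σ ^ 2))

lemma Gs_nonneg {σ : ℝ} (hσ : 0 < σ) (y : ℝ) : 0 ≤ Gs σ y := by
  unfold Gs; positivity

lemma Gs_cont (σ : ℝ) : Continuous (Gs σ) := by
  unfold Gs; fun_prop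

lemma Gs_neg (σ y : ℝ) : Gs σ (-y) = Gs σ y := by
  unfold Gs; rw [neg_sq]

lemma Gs_ofReal (σ x y w : ℝ) (hσ : 0 < σ) : (Gs σ (y - x) : ℂ) * cexp (-(I * y * w)) =
    (1 / (σ * Real.sqrt (2 * Real.pi)) : ℝ) *
      cexp ((-(1 / (2 * σ ^ 2)) : ℝ) * (y : ℂ) ^ 2 + (x / σ ^ 2 - I * w) * y +
        (-(x ^ 2) / (2 * σ ^ 2))) := by
  unfold Gs
  rw [Complex.ofReal_mul, mul_assoc, Complex.ofReal_exp, ← Complex.exp_add]
  congr 2
  have hs : (σ : ℂ) ≠ 0 := by exact_mod_cast hσ.ne'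
  push_cast
  field_simp
  ring

lemma Gs_int (σ x w : ℝ) (hσ : 0 < σ) :
    Integrable fun y : ℝ => (Gs σ (y - x) : ℂ) * cexp (-(I * y * w)) := by
  have h : (fun y : ℝ => (Gs σ (y - x) : ℂ) * cexp (-(I * y * w))) = fun y : ℝ =>
      (1 / (σ * Real.sqrt (2 * Real.pi)) : ℝ) *
      cexp ((-(1 / (2 * σ ^ 2)) : ℝ) * (y : ℂ) ^ 2 + (x / σ ^ 2 - I * w) * y +
        (-(x ^ 2) / (2 * σ ^ 2))) := by
    funext y
    exact Gs_ofReal σ x y w hσ
  rw [h]
  refine Integrable.const_mul ?_ _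
  have h2 : ((-(1 / (2 * σ ^ 2)) : ℝ) : ℂ).re < 0 := by
    rw [Complex.ofReal_re]
    have : 0 < 1 / (2 * σ ^ 2) := by positivity
    linarith
  exact integrable_cexp_quadratic' h2 _ _

lemma Gs_fourier (σ x w : ℝ) (hσ : 0 < σ) :
    ∫ y : ℝ, (Gs σ (y - x) : ℂ) * cexp (-(I * y * w)) =
      cexp (-(I * x * w)) * Real.exp (-(σ ^ 2 * w ^ 2) / 2) := by
  simp_rw [Gs_ofReal σ x _ w hσ]
  rw [integral_const_mul]
  have h2 : ((-(1 / (2 * σ ^ 2)) : ℝ) : ℂ).re < 0 := by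
    rw [Complex.ofReal_re]
    have : 0 < 1 / (2 * σ ^ 2) := by positivity
    linarith
  rw [integral_cexp_quadratic h2]
  have hs : (σ : ℂ) ≠ 0 := by exact_mod_cast hσ.ne'
  have h1 : ((Real.pi : ℂ) / -((-(1 / (2 * σ ^ 2)) : ℝ) : ℂ)) ^ (1 / 2 : ℂ) =
      (σ * Real.sqrt (2 * Real.pi) : ℝ) := by
    have : (Real.pi : ℂ) / -((-(1 / (2 * σ ^ 2)) : ℝ) : ℂ) =
        ((2 * Real.pi * σ ^ 2 : ℝ) : ℂ) := by
      push_cast
      field_simp
    rw [this]
    have h3 : (σ * Real.sqrt (2 * Real.pi)) = (2 * Real.pi * σ ^ 2) ^ (1 / 2 : ℝ) := by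
      rw [← Real.sqrt_eq_rpow, Real.sqrt_mul (show (0 : ℝ) ≤ 2 * Real.pi by positivity) (σ ^ 2),
        Real.sqrt_sq hσ.le, mul_comm]
    rw [h3, Complex.ofReal_cpow (by positivity)]
    norm_num
  rw [h1, ← mul_assoc, ← Complex.ofReal_mul]
  have h4 : (1 / (σ * Real.sqrt (2 * Real.pi))) * (σ * Real.sqrt (2 * Real.pi)) = 1 := by
    field_simp
  rw [h4, Complex.ofReal_one, one_mul, Complex.ofReal_exp, ← Complex.exp_add]
  congr 1
  push_cast
  field_simp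
  ring_nf
  simp only [I_sq]
  ring

/-- Gaussian mean square of a finite exponential sum -/
theorem gauss_ms {ι : Type*} (J : Finset ι) (c : ι → ℂ) (w : ι → ℝ) (σ x : ℝ) (hσ : 0 < σ) :
    Integrable (fun y : ℝ => Gs σ (y - x) * ‖∑ j ∈ J, c j * cexp (-(I * y * w j))‖ ^ 2) ∧
    ((∫ y : ℝ, Gs σ (y - x) * ‖∑ j ∈ J, c j * cexp (-(I * y * w j))‖ ^ 2 : ℝ) : ℂ) =
      ∑ j ∈ J, ∑ k ∈ J, c j * conj (c k) * (cexp (-(I * x * ((w j - w k : ℝ) : ℂ))) *
        Real.exp (-(σ ^ 2 * (w j - w k) ^ 2) / 2)) := by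
  have hpt : ∀ y : ℝ, ((Gs σ (y - x) * ‖∑ j ∈ J, c j * cexp (-(I * y * w j))‖ ^ 2 : ℝ) : ℂ) =
      ∑ j ∈ J, ∑ k ∈ J, c j * conj (c k) *
        ((Gs σ (y - x) : ℂ) * cexp (-(I * y * ((w j - w k : ℝ) : ℂ)))) := by
    intro y
    rw [Complex.ofReal_mul, ← Complex.normSq_eq_norm_sq, ← Complex.mul_conj, map_sum,
      Finset.sum_mul_sum, Finset.mul_sum]
    refine Finset.sum_congr rfl fun j _ => ?_
    rw [Finset.mul_sum]
    refine Finset.sum_congr rfl fun k _ => ?_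
    rw [map_mul, ← Complex.exp_conj]
    have e : cexp (-(I * y * ((w j - w k : ℝ) : ℂ))) =
        cexp (-(I * y * w j)) * cexp (conj (-(I * y * w k))) := by
      rw [← Complex.exp_add]
      congr 1
      simp only [map_neg, map_mul, Complex.conj_I, Complex.conj_ofReal]
      push_cast
      ring
    rw [e]
    ring
  have hint : ∀ j k, Integrable fun y : ℝ => c j * conj (c k) *
        ((Gs σ (y - x) : ℂ) * cexp (-(I * y * ((w j - w k : ℝ) : ℂ)))) :=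
    fun j k => (Gs_int σ x (w j - w k) hσ).const_mul _
  have hI : Integrable fun y : ℝ => ((Gs σ (y - x) *
      ‖∑ j ∈ J, c j * cexp (-(I * y * w j))‖ ^ 2 : ℝ) : ℂ) := by
    simp_rw [hpt]
    exact integrable_finsetSum _ fun j _ => integrable_finsetSum _ fun k _ => hint j k
  refine ⟨?_, ?_⟩
  · exact hI.re.congr (Eventually.of_forall fun y => Complex.ofReal_re _)
  · rw [← integral_complex_ofReal]
    simp_rw [hpt]
    rw [integral_finsetSum _ fun j _ => integrable_finsetSum _ fun k _ => hint j k]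
    refine Finset.sum_congr rfl fun j _ => ?_
    rw [integral_finsetSum _ fun k _ => hint j k]
    refine Finset.sum_congr rfl fun k _ => ?_
    rw [integral_const_mul, Gs_fourier σ x (w j - w k) hσ]

end H370.AS
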