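import Pool.Agent.H345R2.AS.Outer
import Pool.Agent.H345R2.AS.Exc1

/-! The mean square of the zero sum, with the off-diagonal terms kept. -/

open Complex Filter Topology Set MeasureTheory
open scoped BigOperators ComplexConjugate

namespace H370.AS

open H370.SI (ef_sub)

/-- the mean square of the zero sum -/
theorem JJ_mod {F : ℂ → ℂ} (hF : GoodL F) :
    ∃ a : ℕ → ℂ, (∀ n, ‖a n‖ ≤ ArithmeticFunction.vonMangoldt n) ∧
    ∀ θ lam κ η : ℝ, 0 < θ → θ < 1 → 0 < lam → lam ≤ 1 → 3 / 8 * lam < θ → 0 < κ → 0 < η → η ≤ 1 →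
    ∃ K1 K2 T0 : ℝ, 0 < K1 ∧ 0 < K2 ∧ 10 ≤ T0 ∧ ∀ T : ℝ, T0 ≤ T →
    ∀ A B : ℝ, T + 1 ≤ A → B ≤ 2 * T - 1 → T ^ θ ≤ B - A →
      (∀ s : ℂ, s ∈ zset F A B →
        (s.im ≤ A + 2 * Real.log T ∨ B - 2 * Real.log T ≤ s.im) → s.re ≤ 11 / 16) →
      ∀ σ w : ℝ, ∀ X : ℕ, 0 < σ → 0 ≤ w → w ≤ η / 4 * (B - A) →
      Real.sqrt 2 * Real.exp (-w ^ 2 / (4 * σ ^ 2)) ≤ η / (1 + η) →
      (lam + κ) * Real.log T ≤ Real.log (X + 1) →
      ∀ u : ℝ, 0 ≤ u → u ≤ lam * Real.log T →
      JJ F A B u ≤ (1 + η) / (2 * Real.pi) * ((B - A) * (Real.log T) ^ 2 * Real.exp (-u ^ 2) +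
        K1 * ((B - A) * Real.log T) * Real.exp (2 * u - u ^ 2 / 2) +
          (1 + η) ^ 3 * (B - A) * VV u +
          (1 + η) ^ 2 * ∫ x in (A - w)..(B + w), ‖EE (bb a u) X σ x‖ ^ 2) + K2 * (B - A) := by
  obtain ⟨a, ha, C, T0, hC, hT0, hEF⟩ := ef_sub hF
  obtain ⟨Co, T1, hCo, hT1, hout⟩ := outer_mod hF
  refine ⟨a, ha, fun θ lam κ η hθ hθ1 hlam hlam1 hgap hκ hη hη1 => ?_⟩
  set S := ∑' n : ℕ, 1 / (n : ℝ) ^ 2 with hS
  have hS0 : 0 < S := sum_inv_sq.tsum_pos (fun n => by positivity) 1 (by norm_num)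
  -- eventual facts
  have ev2 : ∀ᶠ T : ℝ in atTop, 2 * S * (Real.exp (4 + 2 * Real.log T) *
      Real.exp (-(κ * Real.log T) ^ 2 / 4)) ≤ 1 := by
    have h1 : ∀ᶠ L : ℝ in atTop, Real.log (2 * S) + 4 + 2 * L -
        (κ * L) ^ 2 / 4 ≤ 0 := by
      have h2 : ∀ᶠ L : ℝ in atTop, 3 * 4 / κ ^ 2 ≤ L := eventually_ge_atTop _
      have h3 : ∀ᶠ L : ℝ in atTop, Real.log (2 * S) + 4 ≤ L := eventually_ge_atTop _
      filter_upwards [h2, h3, eventually_ge_atTop 0] with L h2 h3 h4
      have h5 : 3 * L ≤ (κ * L) ^ 2 / 4 := by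
        rw [div_le_iff₀ (by positivity)] at h2
        nlinarith
      linarith
    filter_upwards [Real.tendsto_log_atTop.eventually h1] with T hT
    have h6 : 2 * S = Real.exp (Real.log (2 * S)) := (Real.exp_log (by positivity)).symm
    rw [h6, ← Real.exp_add, ← Real.exp_add]
    apply Real.exp_le_one_iff.mpr
    linarith
  have ev3 : ∀ᶠ T : ℝ in atTop, T ^ (3 / 8 * lam) * (Real.log T) ^ 3 ≤ T ^ θ := by
    have hd : 0 < θ - 3 / 8 * lam := by linarith
    have h1 : (fun T : ℝ => (Real.log T) ^ 3) =o[atTop] fun T : ℝ => T ^ (θ - 3 / 8 * lam) :=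
      (isLittleO_log_rpow_atTop (r := (θ - 3 / 8 * lam) / 3) (by positivity)).pow
        (by norm_num : 0 < 3) |>.trans_eventuallyEq
        (by
          filter_upwards [eventually_gt_atTop 0] with T hT
          rw [← Real.rpow_natCast, ← Real.rpow_mul hT.le]
          congr 1
          push_cast
          ring)
    have h3 := h1.bound (show (0 : ℝ) < 1 by norm_num)
    filter_upwards [h3, eventually_ge_atTop 1] with T hT hT1
    have hT0 : (0 : ℝ) < T := by linarith
    have hl : 0 ≤ Real.log T := Real.log_nonneg hT1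
    rw [Real.norm_of_nonneg (by positivity), Real.norm_of_nonneg (by positivity), one_mul] at hT
    calc T ^ (3 / 8 * lam) * (Real.log T) ^ 3 ≤ T ^ (3 / 8 * lam) * T ^ (θ - 3 / 8 * lam) := by
          gcongr
      _ = T ^ θ := by
          rw [← Real.rpow_add hT0]
          congr 1
          ring
  have ev4 : ∀ᶠ T : ℝ in atTop, 2 * Real.log T ≤ T ^ θ := by
    have h1 := (isLittleO_log_rpow_atTop hθ).bound (show (0 : ℝ) < 1 / 2 by norm_num)
    filter_upwards [h1, eventually_ge_atTop 1] with T hT hT1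
    have hl : 0 ≤ Real.log T := Real.log_nonneg hT1
    rw [Real.norm_of_nonneg hl, Real.norm_of_nonneg (by positivity)] at hT
    linarith
  obtain ⟨T2, hT2⟩ := ((ev2.and ev3).and ev4).exists_forall_of_atTop
  set CP := 2 * S with hCP
  refine ⟨2 * CP * Real.exp 2, (1 + η) / (2 * Real.pi) * ((1 + η) ^ 3 + (1 + 1 / η)) +
      (1 + 1 / η) * C ^ 2 + Co,
    max T0 (max T1 T2), by positivity, by positivity, hT0.trans (le_max_left _ _),
    fun T hT => ?_⟩
  have hTT0 : T0 ≤ T := (le_max_left _ _).trans hT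
  have hTT1 : T1 ≤ T := (le_max_left _ _).trans ((le_max_right _ _).trans hT)
  obtain ⟨⟨e2, e3⟩, e4⟩ := hT2 T ((le_max_right _ _).trans ((le_max_right _ _).trans hT))
  intro A B hA hB hAB hz σ w X hσ hw0 hw1 hmass hXlog0 u hu hu1
  have hmain := hEF T hTT0 A B hA hB
  have hT10 : 10 ≤ T := hT0.trans hTT0
  have hTpos : 0 < T := by linarith
  have hU : 1 ≤ A := by linarith
  set H : ℝ := B - A with hHdef
  have hTθ : 0 < T ^ θ := Real.rpow_pos_of_pos hTpos θ
  have hH0 : 0 < H := by linarith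
  set L := Real.log T with hL
  have hL1 : 1 ≤ L := by
    rw [hL, Real.le_log_iff_exp_le hTpos]
    have := Real.exp_one_lt_d9
    linarith
  have huL : u ≤ L := by nlinarith
  have hab : A + L ≤ B - L := by linarith
  have hlen : B - L - (A + L) ≤ H := by linarith
  have hlen0 : 0 ≤ B - L - (A + L) := by linarith
  -- split
  have hint := AA_sq_int hF (U2 := B) hU u
  have hsplit : JJ F A B u = (∫ t in (A + L)..(B - L), ‖AA F A B u t‖ ^ 2) +
      ∫ t in (Set.Icc (A + L) (B - L))ᶜ, ‖AA F A B u t‖ ^ 2 := by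
    unfold JJ
    rw [← integral_add_compl measurableSet_Icc hint, intervalIntegral.integral_of_le hab,
      integral_Icc_eq_integral_Ioc]
  -- outer
  have houter := hout T hTT1 A B (by linarith) (by linarith) hz u hu huL
  have houter2 : ∫ t in (Set.Icc (A + L) (B - L))ᶜ, ‖AA F A B u t‖ ^ 2 ≤ Co * H := by
    refine houter.trans ?_
    have h1 : Real.exp (3 / 8 * u) ≤ T ^ (3 / 8 * lam) := by
      rw [Real.rpow_def_of_pos hTpos]
      apply Real.exp_le_exp.mpr
      rw [← hL]
      linarith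
    calc Co * Real.exp (3 / 8 * u) * L ^ 3 ≤ Co * T ^ (3 / 8 * lam) * L ^ 3 := by gcongr
      _ = Co * (T ^ (3 / 8 * lam) * L ^ 3) := by ring
      _ ≤ Co * H := by gcongr; linarith
  -- inner pointwise
  set c0 : ℝ := 1 / Real.sqrt (2 * Real.pi) with hc0
  have hc02 : c0 ^ 2 = 1 / (2 * Real.pi) := by
    rw [hc0, div_pow, one_pow, Real.sq_sqrt (by positivity)]
  have hpt : ∀ t ∈ Set.Icc (A + L) (B - L), ‖AA F A B u t‖ ^ 2 ≤
      (1 + η) / (2 * Real.pi) * (L ^ 2 * Real.exp (-u ^ 2) +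
        2 * CP * Real.exp 2 * L * Real.exp (2 * u - u ^ 2 / 2) + ‖PP a u t‖ ^ 2) +
        (1 + 1 / η) * C ^ 2 := by
    intro t ht
    have h1 := hmain u t hu huL ht.1 ht.2
    set M : ℂ := (c0 : ℂ) * (L * cexp (I * u * t) * Real.exp (-u ^ 2 / 2) - PP a u t) with hM
    have h2 := sq_young (x := M) (y := AA F A B u t - M) hη
    rw [add_sub_cancel] at h2
    have h3 : ‖AA F A B u t - M‖ ^ 2 ≤ C ^ 2 := by
      have h4 : ‖AA F A B u t - M‖ ≤ C := h1
      gcongr
    have h5 : ‖M‖ ≤ c0 * (L * Real.exp (-u ^ 2 / 2) + ‖PP a u t‖) := by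
      rw [hM, norm_mul, Complex.norm_real, Real.norm_of_nonneg (by positivity)]
      gcongr
      refine (norm_sub_le _ _).trans ?_
      gcongr
      rw [norm_mul, norm_mul, Complex.norm_real, Complex.norm_real,
        Real.norm_of_nonneg (by linarith), Real.norm_of_nonneg (Real.exp_pos _).le,
        show (I * u * t : ℂ) = ((u * t : ℝ) : ℂ) * I by push_cast; ring,
        Complex.norm_exp_ofReal_mul_I, mul_one]
    have h6 : ‖M‖ ^ 2 ≤ 1 / (2 * Real.pi) * (L ^ 2 * Real.exp (-u ^ 2) +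
        2 * CP * Real.exp 2 * L * Real.exp (2 * u - u ^ 2 / 2) + ‖PP a u t‖ ^ 2) := by
      have hPPb := PP_bound ha u t
      calc ‖M‖ ^ 2 ≤ (c0 * (L * Real.exp (-u ^ 2 / 2) + ‖PP a u t‖)) ^ 2 := by gcongr
        _ = 1 / (2 * Real.pi) * (L ^ 2 * (Real.exp (-u ^ 2 / 2)) ^ 2 +
            2 * L * Real.exp (-u ^ 2 / 2) * ‖PP a u t‖ + ‖PP a u t‖ ^ 2) := by
            rw [mul_pow, hc02]; ring
        _ ≤ 1 / (2 * Real.pi) * (L ^ 2 * (Real.exp (-u ^ 2 / 2)) ^ 2 +
            2 * L * Real.exp (-u ^ 2 / 2) * (2 * S * Real.exp (2 + 2 * u)) + ‖PP a u t‖ ^ 2) := by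
            gcongr
        _ = _ := by
            have e5 : (Real.exp (-u ^ 2 / 2)) ^ 2 = Real.exp (-u ^ 2) := by
              rw [← Real.exp_nat_mul]; congr 1; push_cast; ring
            have e6 : Real.exp (-u ^ 2 / 2) * Real.exp (2 + 2 * u) =
                Real.exp 2 * Real.exp (2 * u - u ^ 2 / 2) := by
              rw [← Real.exp_add, ← Real.exp_add]; congr 1; ring
            rw [e5, hCP]
            linear_combination (1 / (2 * Real.pi)) * (2 * L * (2 * S)) * e6
    calc ‖AA F A B u t‖ ^ 2 ≤ (1 + η) * ‖M‖ ^ 2 +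
        (1 + 1 / η) * ‖AA F A B u t - M‖ ^ 2 := h2
      _ ≤ (1 + η) * (1 / (2 * Real.pi) * (L ^ 2 * Real.exp (-u ^ 2) +
        2 * CP * Real.exp 2 * L * Real.exp (2 * u - u ^ 2 / 2) + ‖PP a u t‖ ^ 2)) +
        (1 + 1 / η) * C ^ 2 := by gcongr
      _ = _ := by ring
  have hPPc := PP_cont ha u
  -- mean square of PP
  set Etl : ℝ := 2 * S * (Real.exp (4 + 2 * u) * Real.exp (-(κ * L) ^ 2 / 4)) with hEtl
  have hEtl0 : 0 ≤ Etl := by positivity
  have hEtl1 : Etl ≤ 1 := by
    refine le_trans ?_ e2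
    rw [hEtl]
    gcongr
  set IE : ℝ := ∫ x in (A - w)..(B + w), ‖EE (bb a u) X σ x‖ ^ 2 with hIE
  have hDc := DP_cont (bb a u) X
  have hms2 : ∫ t in (A + L)..(B - L), ‖PP a u t‖ ^ 2 ≤
      (1 + η) ^ 3 * H * VV u + (1 + η) ^ 2 * IE + ((1 + η) ^ 3 + (1 + 1 / η)) * H := by
    have hV := VV_nonneg u
    have hterm : ∀ t : ℝ, ‖∑ n ∈ Finset.Icc 1 X, pterm a u t n‖ = ‖DP (bb a u) X t‖ := by
      intro t
      have h1 : ∑ n ∈ Finset.Icc 1 X, pterm a u t n = cexp (((t * u : ℝ) : ℂ) * I) *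
          DP (bb a u) X t := by
        unfold DP
        rw [Finset.mul_sum]
        refine Finset.sum_congr rfl fun n _ => ?_
        unfold pterm bb
        have h3 : cexp (I * t * (u - Real.log n)) = cexp (((t * u : ℝ) : ℂ) * I) *
            cexp (-(I * t * Real.log n)) := by
          rw [← Complex.exp_add]
          congr 1
          push_cast
          ring
        rw [h3]; ring
      rw [h1, norm_mul, Complex.norm_exp_ofReal_mul_I, one_mul]
    have h1 : ∫ t in (A + L)..(B - L), ‖PP a u t‖ ^ 2 ≤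
        ∫ t in (A + L)..(B - L), ((1 + η) * ‖DP (bb a u) X t‖ ^ 2 + (1 + 1 / η) * Etl ^ 2) := by
      refine intervalIntegral.integral_mono_on hab ((hPPc.norm.pow 2).intervalIntegrable _ _) ?_
        fun t _ => ?_
      · exact ((continuous_const.mul (hDc.norm.pow 2)).add continuous_const).intervalIntegrable _ _
      · have h5 := sq_young (x := ∑ n ∈ Finset.Icc 1 X, pterm a u t n)
          (y := PP a u t - ∑ n ∈ Finset.Icc 1 X, pterm a u t n) hη
        rw [add_sub_cancel, hterm] at h5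
        refine h5.trans ?_
        have h6 := PP_trunc ha u t (κ * L) X (by positivity) (by
          refine le_trans ?_ hXlog0
          have h0 : (lam + κ) * L = lam * L + κ * L := add_mul _ _ _
          rw [h0]
          linarith)
        have h7 : ‖PP a u t - ∑ n ∈ Finset.Icc 1 X, pterm a u t n‖ ≤ Etl := h6
        gcongr
    have h2 : ∫ t in (A + L)..(B - L), ((1 + η) * ‖DP (bb a u) X t‖ ^ 2 + (1 + 1 / η) * Etl ^ 2) =
        (1 + η) * (∫ t in (A + L)..(B - L), ‖DP (bb a u) X t‖ ^ 2) +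
          (B - L - (A + L)) * ((1 + 1 / η) * Etl ^ 2) := by
      rw [intervalIntegral.integral_add, intervalIntegral.integral_const_mul,
        intervalIntegral.integral_const, smul_eq_mul]
      · exact (continuous_const.mul (hDc.norm.pow 2)).intervalIntegrable _ _
      · exact continuous_const.intervalIntegrable _ _
    have h3 : ∫ t in (A + L)..(B - L), ‖DP (bb a u) X t‖ ^ 2 ≤ ∫ t in A..B, ‖DP (bb a u) X t‖ ^ 2 := by
      apply intervalIntegral.integral_mono_interval (by linarith) hab (by linarith)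
      · exact Eventually.of_forall fun x => by positivity
      · exact (hDc.norm.pow 2).intervalIntegrable _ _
    have h4 := local_ms (bb a u) X σ w η A B hσ hw0 hη (by linarith) hmass
    have hEc := EE_cont (bb a u) X σ
    have h5 : ∫ x in (A - w)..(B + w), ‖EE (bb a u) X σ x‖ ≤ (H + 2 * w) + IE := by
      calc ∫ x in (A - w)..(B + w), ‖EE (bb a u) X σ x‖ ≤
          ∫ x in (A - w)..(B + w), (1 + ‖EE (bb a u) X σ x‖ ^ 2) := by
            refine intervalIntegral.integral_mono_on (by linarith)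
              (hEc.norm.intervalIntegrable _ _)
              ((continuous_const.add (hEc.norm.pow 2)).intervalIntegrable _ _) fun x _ => ?_
            nlinarith [sq_nonneg (‖EE (bb a u) X σ x‖ - 1), norm_nonneg (EE (bb a u) X σ x)]
        _ = (H + 2 * w) + IE := by
            have hc2 : Continuous fun x => ‖EE (bb a u) X σ x‖ ^ 2 := hEc.norm.pow 2
            rw [intervalIntegral.integral_add (continuous_const.intervalIntegrable _ _)
              (hc2.intervalIntegrable _ _), intervalIntegral.integral_const,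
              smul_eq_mul, hIE, hHdef]
            ring
    have h6 : H + 2 * w ≤ (1 + η / 2) * H := by linarith
    have h7 : H + 2 * w ≤ (1 + η) * H := by nlinarith
    have h8 := bb_sq_le ha u X
    have h9 : 0 ≤ H + 2 * w := by linarith
    have h10 : ∫ t in A..B, ‖DP (bb a u) X t‖ ^ 2 ≤
        (1 + η) * (((1 + η) * H) * VV u + ((1 + η) * H + IE)) := by
      refine h4.trans ?_
      apply mul_le_mul_of_nonneg_left _ (by linarith)
      refine add_le_add ?_ (h5.trans (by linarith))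
      rw [← hHdef]
      gcongr
    have h11 : Etl ^ 2 ≤ 1 := pow_le_one₀ hEtl0 hEtl1
    have h12 : (B - L - (A + L)) * ((1 + 1 / η) * Etl ^ 2) ≤ H * ((1 + 1 / η) * 1) := by
      gcongr
    calc ∫ t in (A + L)..(B - L), ‖PP a u t‖ ^ 2 ≤
        (1 + η) * ((1 + η) * (((1 + η) * H) * VV u + ((1 + η) * H + IE))) +
          H * ((1 + 1 / η) * 1) := by
          refine h1.trans ?_
          rw [h2]
          refine add_le_add ?_ h12
          exact mul_le_mul_of_nonneg_left (h3.trans h10) (by linarith)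
      _ = _ := by ring
  -- inner integral
  have hinner : ∫ t in (A + L)..(B - L), ‖AA F A B u t‖ ^ 2 ≤
      (1 + η) / (2 * Real.pi) * (H * L ^ 2 * Real.exp (-u ^ 2) +
        (2 * CP * Real.exp 2) * (H * L) * Real.exp (2 * u - u ^ 2 / 2) +
        ((1 + η) ^ 3 * H * VV u + (1 + η) ^ 2 * IE + ((1 + η) ^ 3 + (1 + 1 / η)) * H)) +
        (1 + 1 / η) * C ^ 2 * H := by
    calc ∫ t in (A + L)..(B - L), ‖AA F A B u t‖ ^ 2 ≤
        ∫ t in (A + L)..(B - L), ((1 + η) / (2 * Real.pi) * (L ^ 2 * Real.exp (-u ^ 2) +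
        2 * CP * Real.exp 2 * L * Real.exp (2 * u - u ^ 2 / 2) + ‖PP a u t‖ ^ 2) +
        (1 + 1 / η) * C ^ 2) := by
          refine intervalIntegral.integral_mono_on hab ?_ ?_ hpt
          · exact ((AA_cont hF hU u).norm.pow 2).intervalIntegrable _ _
          · exact ((continuous_const.mul (continuous_const.add (hPPc.norm.pow 2))).add
              continuous_const).intervalIntegrable _ _
      _ = (1 + η) / (2 * Real.pi) * ((B - L - (A + L)) * (L ^ 2 * Real.exp (-u ^ 2) +
          2 * CP * Real.exp 2 * L * Real.exp (2 * u - u ^ 2 / 2)) +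
          ∫ t in (A + L)..(B - L), ‖PP a u t‖ ^ 2) +
          (B - L - (A + L)) * ((1 + 1 / η) * C ^ 2) := by
          rw [intervalIntegral.integral_add, intervalIntegral.integral_const_mul,
            intervalIntegral.integral_add, intervalIntegral.integral_const,
            intervalIntegral.integral_const, smul_eq_mul, smul_eq_mul]
          · exact continuous_const.intervalIntegrable _ _
          · exact (hPPc.norm.pow 2).intervalIntegrable _ _
          · exact (continuous_const.mul (continuous_const.add (hPPc.norm.pow 2))).intervalIntegrable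
              _ _
          · exact continuous_const.intervalIntegrable _ _
      _ ≤ (1 + η) / (2 * Real.pi) * (H * (L ^ 2 * Real.exp (-u ^ 2) +
          2 * CP * Real.exp 2 * L * Real.exp (2 * u - u ^ 2 / 2)) +
          ((1 + η) ^ 3 * H * VV u + (1 + η) ^ 2 * IE + ((1 + η) ^ 3 + (1 + 1 / η)) * H)) +
          H * ((1 + 1 / η) * C ^ 2) := by
          gcongr
      _ = _ := by ring
  rw [hsplit]
  calc _ ≤ (1 + η) / (2 * Real.pi) * (H * L ^ 2 * Real.exp (-u ^ 2) +
        (2 * CP * Real.exp 2) * (H * L) * Real.exp (2 * u - u ^ 2 / 2) +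
        ((1 + η) ^ 3 * H * VV u + (1 + η) ^ 2 * IE + ((1 + η) ^ 3 + (1 + 1 / η)) * H)) +
        (1 + 1 / η) * C ^ 2 * H + Co * H :=
        add_le_add hinner houter2
    _ = _ := by ring

end H370.AS
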