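import Pool.Agent.H345R2.AS.Second

/-! Mean square over an interval against the Gaussian averages. -/

open Complex Filter Topology Set MeasureTheory
open scoped BigOperators ComplexConjugate

namespace H370.AS

lemma Gs_integrable {σ : ℝ} (hσ : 0 < σ) : Integrable (Gs σ) := by
  have h := Gs_int σ 0 0 hσ
  have h2 := h.re
  refine h2.congr (Eventually.of_forall fun y => ?_)
  simp

lemma Gs_total {σ : ℝ} (hσ : 0 < σ) : ∫ y : ℝ, Gs σ y = 1 := by
  have h := Gs_fourier σ 0 0 hσ
  have h2 : ((∫ y : ℝ, Gs σ y : ℝ) : ℂ) = 1 := by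
    rw [← integral_complex_ofReal]
    simpa using h
  exact_mod_cast h2

lemma Gs_mass {σ w : ℝ} (hσ : 0 < σ) (hw : 0 ≤ w) :
    1 - Real.sqrt 2 * Real.exp (-w ^ 2 / (4 * σ ^ 2)) ≤ ∫ y in (-w)..w, Gs σ y := by
  have hs2 : 0 < Real.sqrt 2 := by positivity
  have hσ2 : 0 < Real.sqrt 2 * σ := by positivity
  have h1 := Gs_integrable hσ
  have h2 := Gs_integrable hσ2
  have h3 : ∫ y in (Set.Ioc (-w) w)ᶜ, Gs σ y ≤
      Real.sqrt 2 * Real.exp (-w ^ 2 / (4 * σ ^ 2)) := by
    calc ∫ y in (Set.Ioc (-w) w)ᶜ, Gs σ y ≤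
        ∫ y in (Set.Ioc (-w) w)ᶜ, Real.sqrt 2 * Real.exp (-w ^ 2 / (4 * σ ^ 2)) *
          Gs (Real.sqrt 2 * σ) y := by
          refine setIntegral_mono_on h1.integrableOn ((h2.const_mul _).integrableOn)
            measurableSet_Ioc.compl fun y hy => ?_
          have hy2 : w ^ 2 ≤ y ^ 2 := by
            rw [Set.mem_compl_iff, Set.mem_Ioc, not_and_or, not_lt, not_le] at hy
            rcases hy with hy | hy
            · nlinarith
            · nlinarith
          unfold Gs
          have e1 : (Real.sqrt 2 * σ) ^ 2 = 2 * σ ^ 2 := by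
            rw [mul_pow, Real.sq_sqrt (by norm_num)]
          rw [e1]
          have e2 : Real.sqrt 2 * Real.exp (-w ^ 2 / (4 * σ ^ 2)) *
              (1 / (Real.sqrt 2 * σ * Real.sqrt (2 * Real.pi)) *
                Real.exp (-y ^ 2 / (2 * (2 * σ ^ 2)))) =
              1 / (σ * Real.sqrt (2 * Real.pi)) * (Real.exp (-w ^ 2 / (4 * σ ^ 2)) *
                Real.exp (-y ^ 2 / (4 * σ ^ 2))) := by
            rw [show 2 * (2 * σ ^ 2) = 4 * σ ^ 2 by ring]
            field_simp
          rw [e2]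
          apply mul_le_mul_of_nonneg_left _ (by positivity)
          rw [← Real.exp_add]
          apply Real.exp_le_exp.mpr
          rw [← add_div, div_le_div_iff₀ (by positivity) (by positivity)]
          have : 0 ≤ σ ^ 2 := sq_nonneg σ
          nlinarith
      _ = Real.sqrt 2 * Real.exp (-w ^ 2 / (4 * σ ^ 2)) *
          ∫ y in (Set.Ioc (-w) w)ᶜ, Gs (Real.sqrt 2 * σ) y := integral_const_mul _ _
      _ ≤ Real.sqrt 2 * Real.exp (-w ^ 2 / (4 * σ ^ 2)) * 1 := by
          apply mul_le_mul_of_nonneg_left _ (by positivity)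
          rw [← Gs_total hσ2]
          exact setIntegral_le_integral h2 (Eventually.of_forall fun y => Gs_nonneg hσ2 y)
      _ = _ := mul_one _
  have h4 := integral_add_compl (measurableSet_Ioc (a := -w) (b := w)) h1
  rw [Gs_total hσ] at h4
  rw [intervalIntegral.integral_of_le (by linarith)]
  linarith

/-- mean square over an interval against the Gaussian averages -/
theorem local_ms (b : ℕ → ℂ) (X : ℕ) (σ w η A B : ℝ) (hσ : 0 < σ) (hw : 0 ≤ w) (hη : 0 < η)
    (hAB : A ≤ B) (hmass : Real.sqrt 2 * Real.exp (-w ^ 2 / (4 * σ ^ 2)) ≤ η / (1 + η)) :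
    ∫ t in A..B, ‖DP b X t‖ ^ 2 ≤ (1 + η) * ((B - A + 2 * w) * ∑ n ∈ Finset.Icc 1 X, ‖b n‖ ^ 2 +
      ∫ x in (A - w)..(B + w), ‖EE b X σ x‖) := by
  have hm := Gs_mass hσ hw
  have hm2 : 1 ≤ (1 + η) * ∫ y in (-w)..w, Gs σ y := by
    have h1 : 1 - η / (1 + η) ≤ ∫ y in (-w)..w, Gs σ y := by linarith
    have h2 : 1 - η / (1 + η) = 1 / (1 + η) := by field_simp; ring
    rw [h2, div_le_iff₀ (by linarith)] at h1
    linarith
  have hDc := DP_cont b X
  have hEc := EE_cont b X σ
  have hGc := Gs_cont σ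
  have hpt : ∀ t ∈ Set.Icc A B, ‖DP b X t‖ ^ 2 ≤
      (1 + η) * ∫ x in (A - w)..(B + w), Gs σ (t - x) * ‖DP b X t‖ ^ 2 := by
    intro t ht
    have h1 : ∫ y in (-w)..w, Gs σ y ≤ ∫ x in (A - w)..(B + w), Gs σ (t - x) := by
      have h2 : ∫ x in (t - w)..(t + w), Gs σ (t - x) = ∫ y in (-w)..w, Gs σ y := by
        rw [intervalIntegral.integral_comp_sub_left (fun y => Gs σ y)]
        congr 1 <;> ring
      rw [← h2]
      apply intervalIntegral.integral_mono_interval (by linarith [ht.1]) (by linarith)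
        (by linarith [ht.2])
      · exact Eventually.of_forall fun x => Gs_nonneg hσ _
      · exact (hGc.comp (by fun_prop)).intervalIntegrable _ _
    rw [intervalIntegral.integral_mul_const]
    have h3 : 0 ≤ ‖DP b X t‖ ^ 2 := by positivity
    calc ‖DP b X t‖ ^ 2 = 1 * ‖DP b X t‖ ^ 2 := (one_mul _).symm
      _ ≤ ((1 + η) * ∫ x in (A - w)..(B + w), Gs σ (t - x)) * ‖DP b X t‖ ^ 2 := by
        apply mul_le_mul_of_nonneg_right _ h3
        refine hm2.trans ?_
        apply mul_le_mul_of_nonneg_left h1 (by linarith)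
      _ = _ := by ring
  have hF : Continuous (fun p : ℝ × ℝ => Gs σ (p.1 - p.2) * ‖DP b X p.1‖ ^ 2) := by
    apply Continuous.mul
    · exact hGc.comp (by fun_prop)
    · exact (hDc.comp continuous_fst).norm.pow 2
  have hswap : ∫ t in A..B, ∫ x in (A - w)..(B + w), Gs σ (t - x) * ‖DP b X t‖ ^ 2 =
      ∫ x in (A - w)..(B + w), ∫ t in A..B, Gs σ (t - x) * ‖DP b X t‖ ^ 2 := by
    apply intervalIntegral_intervalIntegral_swap
    have h1 : IsCompact (Set.uIcc A B ×ˢ Set.uIcc (A - w) (B + w)) :=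
      isCompact_uIcc.prod isCompact_uIcc
    exact (hF.continuousOn.integrableOn_compact h1).mono_set
      (Set.prod_mono Set.uIoc_subset_uIcc Set.uIoc_subset_uIcc)
  have hinner : ∀ x : ℝ, ∫ t in A..B, Gs σ (t - x) * ‖DP b X t‖ ^ 2 ≤
      ∑ n ∈ Finset.Icc 1 X, ‖b n‖ ^ 2 + ‖EE b X σ x‖ := by
    intro x
    obtain ⟨h1, h2⟩ := gauss_DP b X σ x hσ
    refine le_trans ?_ h2
    rw [intervalIntegral.integral_of_le hAB]
    exact setIntegral_le_integral h1 (Eventually.of_forall fun y =>
      mul_nonneg (Gs_nonneg hσ _) (by positivity))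
  have hcont2 : Continuous fun t => ∫ x in (A - w)..(B + w), Gs σ (t - x) * ‖DP b X t‖ ^ 2 :=
    intervalIntegral.continuous_parametric_intervalIntegral_of_continuous' hF _ _
  have hcont3 : Continuous fun x => ∫ t in A..B, Gs σ (t - x) * ‖DP b X t‖ ^ 2 := by
    have hF' : Continuous (Function.uncurry fun x t : ℝ => Gs σ (t - x) * ‖DP b X t‖ ^ 2) :=
      hF.comp (continuous_snd.prodMk continuous_fst)
    exact intervalIntegral.continuous_parametric_intervalIntegral_of_continuous' hF' _ _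
  calc ∫ t in A..B, ‖DP b X t‖ ^ 2 ≤
      ∫ t in A..B, (1 + η) * ∫ x in (A - w)..(B + w), Gs σ (t - x) * ‖DP b X t‖ ^ 2 := by
        refine intervalIntegral.integral_mono_on hAB ?_ ?_ hpt
        · exact (hDc.norm.pow 2).intervalIntegrable _ _
        · exact (continuous_const.mul hcont2).intervalIntegrable _ _
    _ = (1 + η) * ∫ x in (A - w)..(B + w), ∫ t in A..B, Gs σ (t - x) * ‖DP b X t‖ ^ 2 := by
        rw [intervalIntegral.integral_const_mul, hswap]
    _ ≤ (1 + η) * ∫ x in (A - w)..(B + w), (∑ n ∈ Finset.Icc 1 X, ‖b n‖ ^ 2 + ‖EE b X σ x‖) := by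
        apply mul_le_mul_of_nonneg_left _ (by linarith)
        refine intervalIntegral.integral_mono_on (by linarith) (hcont3.intervalIntegrable _ _) ?_
          fun x _ => hinner x
        exact (continuous_const.add hEc.norm).intervalIntegrable _ _
    _ = _ := by
        rw [intervalIntegral.integral_add (continuous_const.intervalIntegrable _ _)
          (hEc.norm.intervalIntegrable _ _), intervalIntegral.integral_const, smul_eq_mul]
        ring

end H370.AS
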