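import Pool.Agent.H345R2.SI.JJ

/-! The outer region when the zeros near the end points are not far to the right. -/

open Complex Filter Topology Set MeasureTheory
open scoped BigOperators ComplexConjugate

namespace H370.AS

open H370.SI

section zeros

variable {F : ℂ → ℂ} (hF : GoodL F)

include hF in
lemma Zg_int {a b : ℝ} (hU : 1 ≤ a) : Integrable (fun t => Zg F a b t) ∧
    ∫ t, Zg F a b t = (NN F a b : ℝ) * Real.sqrt (2 * Real.pi) := by
  unfold Zg
  constructor
  · exact integrable_finsetSum _ fun s _ => (gauss_real_int s.im).const_mul _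
  · rw [integral_finsetSum _ fun s _ => (gauss_real_int s.im).const_mul _, NN_eq hF hU,
      Nat.cast_sum, Finset.sum_mul]
    refine Finset.sum_congr rfl fun s _ => ?_
    rw [integral_const_mul, gauss_real]

include hF in
lemma Zg_le_NN {a b : ℝ} (hU : 1 ≤ a) (t : ℝ) : Zg F a b t ≤ NN F a b := by
  unfold Zg
  rw [NN_eq hF hU, Nat.cast_sum]
  refine Finset.sum_le_sum fun s _ => ?_
  have : Real.exp (-(s.im - t) ^ 2 / 2) ≤ 1 := by
    apply Real.exp_le_one_iff.mpr
    have := sq_nonneg (s.im - t)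
    linarith
  calc (mult F s : ℝ) * Real.exp (-(s.im - t) ^ 2 / 2) ≤ (mult F s : ℝ) * 1 := by gcongr
    _ = _ := mul_one _

include hF in
lemma Zg_sq_int {a b : ℝ} (hU : 1 ≤ a) : Integrable (fun t => (Zg F a b t) ^ 2) := by
  refine ((Zg_int hF hU (b := b)).1.const_mul (NN F a b : ℝ)).mono'
    ((Zg_cont F a b).pow 2).aestronglyMeasurable (Eventually.of_forall fun t => ?_)
  have h0 := Zg_nonneg F a b t
  have h1 := Zg_le_NN hF hU (b := b) t
  rw [Real.norm_of_nonneg (by positivity), pow_two]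
  gcongr

include hF in
/-- outer region, mean square -/
lemma Zg_outer : ∃ C T1 : ℝ, 0 < C ∧ 4 ≤ T1 ∧ ∀ T : ℝ, T1 ≤ T → ∀ a b : ℝ, T ≤ a →
    b ≤ 2 * T →
    ∫ t in (Set.Icc (a + Real.log T) (b - Real.log T))ᶜ, (Zg F a b t) ^ 2 ≤
      C * (Real.log T) ^ 3 := by
  obtain ⟨C1, hC1, hZ⟩ := Zg_le hF
  obtain ⟨C2, hC2, hN⟩ := NN_crude hF
  -- need `T^2 L^2 exp(-L^2/2) ≤ 1` for large T
  have hlim : ∀ᶠ T : ℝ in atTop, T ^ 2 * Real.exp (-(Real.log T) ^ 2 / 2) ≤ 1 := by
    have h4 : ∀ᶠ T : ℝ in atTop, 4 ≤ Real.log T := Real.tendsto_log_atTop.eventually_ge_atTop 4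
    filter_upwards [h4, eventually_gt_atTop 0] with T hT hT0
    have : T ^ 2 = Real.exp (2 * Real.log T) := by
      rw [mul_comm, Real.exp_mul, Real.exp_log hT0]; norm_cast
    rw [this, ← Real.exp_add]
    apply Real.exp_le_one_iff.mpr
    nlinarith
  obtain ⟨T2, hT2⟩ := (hlim.and (Real.tendsto_log_atTop.eventually_ge_atTop 1)).exists_forall_of_atTop
  refine ⟨(4 * C1 ^ 2 + C2 ^ 2 * (2 * Real.sqrt (2 * Real.pi))), max T2 4, by positivity,
    le_max_right _ _, fun T hT a b hU1 hU2 => ?_⟩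
  have hTa := (hT2 T ((le_max_left _ _).trans hT)).1
  have hL1 := (hT2 T ((le_max_left _ _).trans hT)).2
  have hT4 : 4 ≤ T := (le_max_right _ _).trans hT
  have hU : 1 ≤ a := by linarith
  set L := Real.log T with hL
  set N : ℝ := (NN F a b : ℝ) with hNdef
  have hN0 : 0 ≤ N := by positivity
  have hNle : N ≤ C2 * (T * L) := hN T hT4 a b hU1 hU2
  set Ψ : ℝ → ℝ := fun t => ((C1 * L) ^ 2 *
    ((Set.Icc (a - L) (a + L)).indicator (fun _ => (1 : ℝ)) t +
      (Set.Icc (b - L) (b + L)).indicator (fun _ => (1 : ℝ)) t) +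
    N ^ 2 * Real.exp (-L ^ 2 / 2) *
      (Real.exp (-(a - t) ^ 2 / 2) + Real.exp (-(b - t) ^ 2 / 2))) with hΨ
  have hind : ∀ x y : ℝ, Integrable ((Set.Icc x y).indicator (fun _ => (1 : ℝ))) := by
    intro x y
    rw [integrable_indicator_iff measurableSet_Icc]
    exact integrableOn_const (by simp)
  have hΨint : Integrable Ψ := by
    simp only [hΨ]
    refine Integrable.add ?_ ?_
    · exact ((hind _ _).add (hind _ _)).const_mul _
    · exact ((gauss_real_int _).add (gauss_real_int _)).const_mul _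
  have hΨ0 : ∀ t, 0 ≤ Ψ t := by
    intro t
    simp only [hΨ]
    have e1 : 0 ≤ (Set.Icc (a - L) (a + L)).indicator (fun _ => (1 : ℝ)) t :=
      Set.indicator_nonneg (fun _ _ => zero_le_one) _
    have e2 : 0 ≤ (Set.Icc (b - L) (b + L)).indicator (fun _ => (1 : ℝ)) t :=
      Set.indicator_nonneg (fun _ _ => zero_le_one) _
    positivity
  have hpt : ∀ t ∈ (Set.Icc (a + L) (b - L))ᶜ, (Zg F a b t) ^ 2 ≤ Ψ t := by
    intro t ht
    have e1 : 0 ≤ (Set.Icc (a - L) (a + L)).indicator (fun _ => (1 : ℝ)) t :=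
      Set.indicator_nonneg (fun _ _ => zero_le_one) _
    have e2 : 0 ≤ (Set.Icc (b - L) (b + L)).indicator (fun _ => (1 : ℝ)) t :=
      Set.indicator_nonneg (fun _ _ => zero_le_one) _
    have hZ0 := Zg_nonneg F a b t
    simp only [hΨ]
    -- cases
    have hcase : (t ∈ Set.Icc (a - L) (a + L) ∨ t ∈ Set.Icc (b - L) (b + L)) ∨
        t < a - L ∨ b + L < t := by
      by_contra hcon
      push Not at hcon
      obtain ⟨⟨h3, h4⟩, h5, h6⟩ := hcon
      apply ht
      rw [Set.mem_Icc, not_and_or, not_le, not_le] at h3 h4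
      rw [Set.mem_Icc]
      rcases h3 with h3 | h3
      · linarith
      · rcases h4 with h4 | h4
        · exact ⟨h3.le, h4.le⟩
        · linarith
    have hE : 0 ≤ N ^ 2 * Real.exp (-L ^ 2 / 2) *
      (Real.exp (-(a - t) ^ 2 / 2) + Real.exp (-(b - t) ^ 2 / 2)) := by positivity
    rcases hcase with h3 | h3 | h3
    · have h4 : 1 ≤ (Set.Icc (a - L) (a + L)).indicator (fun _ => (1 : ℝ)) t +
          (Set.Icc (b - L) (b + L)).indicator (fun _ => (1 : ℝ)) t := by
        rcases h3 with h3 | h3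
        · rw [Set.indicator_of_mem h3]; linarith
        · rw [Set.indicator_of_mem h3]; linarith
      have h5 : (Zg F a b t) ^ 2 ≤ (C1 * L) ^ 2 := by
        have := hZ T hT4 a b hU1 hU2 t
        gcongr
      have h6 : (C1 * L) ^ 2 * 1 ≤ (C1 * L) ^ 2 *
          ((Set.Icc (a - L) (a + L)).indicator (fun _ => (1 : ℝ)) t +
          (Set.Icc (b - L) (b + L)).indicator (fun _ => (1 : ℝ)) t) := by gcongr
      linarith
    · have h4 := Zg_left hF (U2 := b) hU le_rfl (show t ≤ a by linarith)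
      have h5 : (Zg F a b t) ^ 2 ≤ N ^ 2 * Real.exp (-L ^ 2 / 2) *
          Real.exp (-(a - t) ^ 2 / 2) := by
        calc (Zg F a b t) ^ 2 ≤ (N * Real.exp (-(a - t) ^ 2 / 2)) ^ 2 := by gcongr
          _ = N ^ 2 * Real.exp (-(a - t) ^ 2 / 2) * Real.exp (-(a - t) ^ 2 / 2) := by ring
          _ ≤ _ := by
            gcongr _ * Real.exp ?_ * _
            nlinarith
      have h6 : 0 ≤ (C1 * L) ^ 2 * ((Set.Icc (a - L) (a + L)).indicator (fun _ => (1 : ℝ)) t +
          (Set.Icc (b - L) (b + L)).indicator (fun _ => (1 : ℝ)) t) := by positivity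
      have h7 : 0 ≤ N ^ 2 * Real.exp (-L ^ 2 / 2) * Real.exp (-(b - t) ^ 2 / 2) := by
        positivity
      linarith
    · have h4 := Zg_right' hF (b := b) hU (show b ≤ t by linarith)
      have h5 : (Zg F a b t) ^ 2 ≤ N ^ 2 * Real.exp (-L ^ 2 / 2) *
          Real.exp (-(b - t) ^ 2 / 2) := by
        calc (Zg F a b t) ^ 2 ≤ (N * Real.exp (-(b - t) ^ 2 / 2)) ^ 2 := by gcongr
          _ = N ^ 2 * Real.exp (-(b - t) ^ 2 / 2) * Real.exp (-(b - t) ^ 2 / 2) := by ring
          _ ≤ _ := by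
            gcongr _ * Real.exp ?_ * _
            nlinarith
      have h6 : 0 ≤ (C1 * L) ^ 2 * ((Set.Icc (a - L) (a + L)).indicator (fun _ => (1 : ℝ)) t +
          (Set.Icc (b - L) (b + L)).indicator (fun _ => (1 : ℝ)) t) := by positivity
      have h7 : 0 ≤ N ^ 2 * Real.exp (-L ^ 2 / 2) * Real.exp (-(a - t) ^ 2 / 2) := by
        positivity
      linarith
  have hstep1 : ∫ t in (Set.Icc (a + L) (b - L))ᶜ, (Zg F a b t) ^ 2 ≤
      ∫ t in (Set.Icc (a + L) (b - L))ᶜ, Ψ t :=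
    setIntegral_mono_on (Zg_sq_int hF hU).integrableOn hΨint.integrableOn
      measurableSet_Icc.compl hpt
  have hstep2 : ∫ t in (Set.Icc (a + L) (b - L))ᶜ, Ψ t ≤ ∫ t, Ψ t :=
    setIntegral_le_integral hΨint (Eventually.of_forall hΨ0)
  have hstep3 : ∫ t, Ψ t = ((C1 * L) ^ 2 * (4 * L) +
      N ^ 2 * Real.exp (-L ^ 2 / 2) * (2 * Real.sqrt (2 * Real.pi))) := by
    simp only [hΨ]
    rw [integral_add, integral_const_mul, integral_const_mul, integral_add,
      integral_add, gauss_real, gauss_real, integral_indicator measurableSet_Icc,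
      integral_indicator measurableSet_Icc]
    · simp only [integral_const, MeasurableSet.univ, measureReal_restrict_apply, Set.univ_inter,
        Real.volume_real_Icc, smul_eq_mul, mul_one]
      rw [max_eq_left (by linarith), max_eq_left (by linarith)]
      ring
    · exact gauss_real_int _
    · exact gauss_real_int _
    · exact hind _ _
    · exact hind _ _
    · exact ((hind _ _).add (hind _ _)).const_mul _
    · exact ((gauss_real_int _).add (gauss_real_int _)).const_mul _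
  refine (hstep1.trans hstep2).trans ?_
  rw [hstep3]
  have hN2 : N ^ 2 * Real.exp (-L ^ 2 / 2) ≤ C2 ^ 2 * L ^ 2 := by
    calc N ^ 2 * Real.exp (-L ^ 2 / 2) ≤ (C2 * (T * L)) ^ 2 * Real.exp (-L ^ 2 / 2) := by gcongr
      _ = C2 ^ 2 * L ^ 2 * (T ^ 2 * Real.exp (-L ^ 2 / 2)) := by ring
      _ ≤ C2 ^ 2 * L ^ 2 * 1 := by gcongr
      _ = _ := by ring
  have hL3 : L ^ 2 ≤ L ^ 3 := by nlinarith [sq_nonneg L]
  have hs0 : 0 ≤ Real.sqrt (2 * Real.pi) := Real.sqrt_nonneg _
  calc ((C1 * L) ^ 2 * (4 * L) +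
      N ^ 2 * Real.exp (-L ^ 2 / 2) * (2 * Real.sqrt (2 * Real.pi))) ≤
      ((C1 * L) ^ 2 * (4 * L) +
      (C2 ^ 2 * L ^ 2) * (2 * Real.sqrt (2 * Real.pi))) := by gcongr
    _ ≤ ((C1 * L) ^ 2 * (4 * L) +
      (C2 ^ 2 * L ^ 3) * (2 * Real.sqrt (2 * Real.pi))) := by gcongr
    _ = _ := by ring

/-- the flat Gaussian sum -/
noncomputable def Z4 (F : ℂ → ℂ) (a b t : ℝ) : ℝ :=
  ∑ s ∈ Zf F a b, (mult F s : ℝ) * Real.exp (-(s.im - t) ^ 2 / 4)

include hF in
lemma Z4_sq {a b : ℝ} (hU : 1 ≤ a) (t : ℝ) : (Z4 F a b t) ^ 2 ≤ (NN F a b : ℝ) * Zg F a b t := by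
  unfold Z4 Zg
  rw [NN_eq hF hU, Nat.cast_sum]
  have h := Finset.sum_sq_le_sum_mul_sum_of_sq_eq_mul (Zf F a b)
    (f := fun s => (mult F s : ℝ)) (g := fun s => (mult F s : ℝ) * Real.exp (-(s.im - t) ^ 2 / 2))
    (r := fun s => (mult F s : ℝ) * Real.exp (-(s.im - t) ^ 2 / 4))
    (fun s _ => by positivity) (fun s _ => by positivity) (fun s _ => by
      rw [mul_pow, ← Real.exp_nat_mul, ← mul_assoc, pow_two]
      congr 2
      push_cast; ring)
  exact h

include hF in
/-- outer region, when no zero near the end points has real part above `11/16` -/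
lemma outer_mod : ∃ C T1 : ℝ, 0 < C ∧ 4 ≤ T1 ∧ ∀ T : ℝ, T1 ≤ T → ∀ a b : ℝ, T ≤ a →
    b ≤ 2 * T → (∀ s : ℂ, s ∈ zset F a b →
      (s.im ≤ a + 2 * Real.log T ∨ b - 2 * Real.log T ≤ s.im) → s.re ≤ 11 / 16) →
    ∀ u : ℝ, 0 ≤ u → u ≤ Real.log T →
    ∫ t in (Set.Icc (a + Real.log T) (b - Real.log T))ᶜ, ‖AA F a b u t‖ ^ 2 ≤
      C * Real.exp (3 / 8 * u) * (Real.log T) ^ 3 := by
  obtain ⟨C1, T1, hC1, hT1, hout⟩ := Zg_outer hF
  obtain ⟨C2, hC2, hN⟩ := NN_crude hF
  have hlim : ∀ᶠ T : ℝ in atTop, T ^ 3 * Real.exp (-(Real.log T) ^ 2 / 2) ≤ 1 := by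
    have h4 : ∀ᶠ T : ℝ in atTop, 6 ≤ Real.log T := Real.tendsto_log_atTop.eventually_ge_atTop 6
    filter_upwards [h4, eventually_gt_atTop 0] with T hT hT0
    have : T ^ 3 = Real.exp (3 * Real.log T) := by
      rw [mul_comm, Real.exp_mul, Real.exp_log hT0]; norm_cast
    rw [this, ← Real.exp_add]
    apply Real.exp_le_one_iff.mpr
    nlinarith
  obtain ⟨T2, hT2⟩ := (hlim.and (Real.tendsto_log_atTop.eventually_ge_atTop 1)).exists_forall_of_atTop
  refine ⟨8 * C1 + 8 * (C2 ^ 2 * Real.sqrt (2 * Real.pi)), max T1 T2, by positivity,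
    hT1.trans (le_max_left _ _), fun T hT a b hU1 hU2 hz u hu huL => ?_⟩
  have hTT1 : T1 ≤ T := (le_max_left _ _).trans hT
  obtain ⟨e1, hL1⟩ := hT2 T ((le_max_right _ _).trans hT)
  have hT4 : 4 ≤ T := hT1.trans hTT1
  have hT0 : 0 < T := by linarith
  have hU : 1 ≤ a := by linarith
  have ho := hout T hTT1 a b hU1 hU2
  set L := Real.log T with hL
  set N : ℝ := (NN F a b : ℝ) with hNdef
  have hN0 : 0 ≤ N := by positivity
  have hNle : N ≤ C2 * (T * L) := hN T hT4 a b hU1 hU2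
  have hpt : ∀ t ∈ (Set.Icc (a + L) (b - L))ᶜ, ‖AA F a b u t‖ ^ 2 ≤
      8 * Real.exp (3 / 8 * u) * (Zg F a b t) ^ 2 +
      8 * (Real.exp u * Real.exp (-L ^ 2 / 2)) * (N * Zg F a b t) := by
    intro t ht
    have h1 : ‖AA F a b u t‖ ≤ 2 * Real.exp (3 / 16 * u) * Zg F a b t +
        2 * (Real.exp (u / 2) * Real.exp (-L ^ 2 / 4)) * Z4 F a b t := by
      rw [AA_eq hF hU]
      unfold Zg Z4
      rw [Finset.mul_sum, Finset.mul_sum, ← Finset.sum_add_distrib]
      refine (norm_sum_le _ _).trans (Finset.sum_le_sum fun s hs => ?_)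
      have hs' := (mem_Zf hF hU).mp hs
      rw [norm_mul, Complex.norm_natCast]
      have hm0 : (0 : ℝ) ≤ mult F s := Nat.cast_nonneg _
      have key : ‖hh u t s‖ ≤ 2 * Real.exp (3 / 16 * u) * Real.exp (-(s.im - t) ^ 2 / 2) +
          2 * (Real.exp (u / 2) * Real.exp (-L ^ 2 / 4)) * Real.exp (-(s.im - t) ^ 2 / 4) := by
        by_cases hend : s.im ≤ a + 2 * L ∨ b - 2 * L ≤ s.im
        · have h2 := hz s hs' hend
          have h3 : ‖hh u t s‖ ≤ 2 * Real.exp (3 / 16 * u) * Real.exp (-(s.im - t) ^ 2 / 2) := by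
            rw [pc_norm_hh]
            have h4 : Real.exp (u * (s.re - 1 / 2)) ≤ Real.exp (3 / 16 * u) := by
              apply Real.exp_le_exp.mpr
              nlinarith
            have h5 : Real.exp (((s.re - 1 / 2) ^ 2 - (s.im - t) ^ 2) / 2) ≤
                2 * Real.exp (-(s.im - t) ^ 2 / 2) := by
              have h6 : (s.re - 1 / 2) ^ 2 ≤ 1 / 4 := by
                have := hs'.1
                have := hs'.2.1
                nlinarith
              have h7 : Real.exp (1 / 8) ≤ 2 := by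
                have h8 := Real.exp_bound_div_one_sub_of_interval (x := 1 / 8) (by norm_num)
                  (by norm_num)
                norm_num at h8 ⊢
                linarith
              calc Real.exp (((s.re - 1 / 2) ^ 2 - (s.im - t) ^ 2) / 2) ≤
                  Real.exp (1 / 8 + -(s.im - t) ^ 2 / 2) := by
                    apply Real.exp_le_exp.mpr; linarith
                _ = Real.exp (1 / 8) * Real.exp (-(s.im - t) ^ 2 / 2) := Real.exp_add _ _
                _ ≤ _ := by gcongr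
            calc _ ≤ Real.exp (3 / 16 * u) * (2 * Real.exp (-(s.im - t) ^ 2 / 2)) := by gcongr
              _ = _ := by ring
          have h9 : 0 ≤ 2 * (Real.exp (u / 2) * Real.exp (-L ^ 2 / 4)) *
              Real.exp (-(s.im - t) ^ 2 / 4) := by positivity
          linarith
        · push Not at hend
          have h2 := norm_hh_le hs' u t hu
          have h3 : L ^ 2 ≤ (s.im - t) ^ 2 := by
            rw [Set.mem_compl_iff, Set.mem_Icc, not_and_or, not_le, not_le] at ht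
            rcases ht with ht | ht
            · nlinarith [hend.1]
            · nlinarith [hend.2]
          have h4 : Real.exp (-(s.im - t) ^ 2 / 2) ≤
              Real.exp (-L ^ 2 / 4) * Real.exp (-(s.im - t) ^ 2 / 4) := by
            rw [← Real.exp_add]
            apply Real.exp_le_exp.mpr
            linarith
          have h9 : 0 ≤ 2 * Real.exp (3 / 16 * u) * Real.exp (-(s.im - t) ^ 2 / 2) := by
            positivity
          calc ‖hh u t s‖ ≤ 2 * Real.exp (u / 2) * Real.exp (-(s.im - t) ^ 2 / 2) := h2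
            _ ≤ 2 * Real.exp (u / 2) * (Real.exp (-L ^ 2 / 4) * Real.exp (-(s.im - t) ^ 2 / 4)) := by
              gcongr
            _ ≤ _ := by linarith
      calc (mult F s : ℝ) * ‖hh u t s‖ ≤ (mult F s : ℝ) *
          (2 * Real.exp (3 / 16 * u) * Real.exp (-(s.im - t) ^ 2 / 2) +
          2 * (Real.exp (u / 2) * Real.exp (-L ^ 2 / 4)) * Real.exp (-(s.im - t) ^ 2 / 4)) := by
            gcongr
        _ = _ := by ring
    have h2 := Zg_nonneg F a b t
    have h3 := Z4_sq hF hU (b := b) t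
    have h5 : (Real.exp (3 / 16 * u)) ^ 2 = Real.exp (3 / 8 * u) := by
      rw [← Real.exp_nat_mul]; congr 1; push_cast; ring
    have h6 : (Real.exp (u / 2) * Real.exp (-L ^ 2 / 4)) ^ 2 =
        Real.exp u * Real.exp (-L ^ 2 / 2) := by
      rw [mul_pow, ← Real.exp_nat_mul, ← Real.exp_nat_mul]
      congr 2 <;> (push_cast; ring)
    calc ‖AA F a b u t‖ ^ 2 ≤ (2 * Real.exp (3 / 16 * u) * Zg F a b t +
        2 * (Real.exp (u / 2) * Real.exp (-L ^ 2 / 4)) * Z4 F a b t) ^ 2 := by gcongr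
      _ ≤ 2 * (2 * Real.exp (3 / 16 * u) * Zg F a b t) ^ 2 +
        2 * (2 * (Real.exp (u / 2) * Real.exp (-L ^ 2 / 4)) * Z4 F a b t) ^ 2 := by
          nlinarith [sq_nonneg (2 * Real.exp (3 / 16 * u) * Zg F a b t -
            2 * (Real.exp (u / 2) * Real.exp (-L ^ 2 / 4)) * Z4 F a b t)]
      _ = 8 * (Real.exp (3 / 16 * u)) ^ 2 * (Zg F a b t) ^ 2 +
        8 * (Real.exp (u / 2) * Real.exp (-L ^ 2 / 4)) ^ 2 * (Z4 F a b t) ^ 2 := by ring
      _ ≤ _ := by
        rw [h5, h6]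
        gcongr
  have hZi := (Zg_int hF hU (b := b)).1
  have hZ2 := Zg_sq_int hF hU (b := b)
  have hΨ : Integrable fun t => 8 * Real.exp (3 / 8 * u) * (Zg F a b t) ^ 2 +
      8 * (Real.exp u * Real.exp (-L ^ 2 / 2)) * (N * Zg F a b t) :=
    (hZ2.const_mul _).add ((hZi.const_mul _).const_mul _)
  have h1 : ∫ t in (Set.Icc (a + L) (b - L))ᶜ, ‖AA F a b u t‖ ^ 2 ≤
      8 * Real.exp (3 / 8 * u) * (C1 * L ^ 3) +
      8 * (Real.exp u * Real.exp (-L ^ 2 / 2)) * (N * (N * Real.sqrt (2 * Real.pi))) := by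
    calc _ ≤ ∫ t in (Set.Icc (a + L) (b - L))ᶜ, (8 * Real.exp (3 / 8 * u) * (Zg F a b t) ^ 2 +
      8 * (Real.exp u * Real.exp (-L ^ 2 / 2)) * (N * Zg F a b t)) :=
          setIntegral_mono_on (AA_sq_int hF hU u).integrableOn hΨ.integrableOn
            measurableSet_Icc.compl hpt
      _ = 8 * Real.exp (3 / 8 * u) * (∫ t in (Set.Icc (a + L) (b - L))ᶜ, (Zg F a b t) ^ 2) +
          8 * (Real.exp u * Real.exp (-L ^ 2 / 2)) *
            (N * ∫ t in (Set.Icc (a + L) (b - L))ᶜ, Zg F a b t) := by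
          rw [integral_add (hZ2.const_mul _).integrableOn
            ((hZi.const_mul _).const_mul _).integrableOn, integral_const_mul, integral_const_mul,
            integral_const_mul]
      _ ≤ _ := by
          have h2 : ∫ t in (Set.Icc (a + L) (b - L))ᶜ, Zg F a b t ≤
              N * Real.sqrt (2 * Real.pi) := by
            rw [hNdef, ← (Zg_int hF hU (b := b)).2]
            exact setIntegral_le_integral hZi (Eventually.of_forall fun t => Zg_nonneg F a b t)
          gcongr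
  refine h1.trans ?_
  have h2 : Real.exp u * Real.exp (-L ^ 2 / 2) * (N * (N * Real.sqrt (2 * Real.pi))) ≤
      C2 ^ 2 * Real.sqrt (2 * Real.pi) * L ^ 3 := by
    have h3 : Real.exp u ≤ T := by
      calc Real.exp u ≤ Real.exp L := Real.exp_le_exp.mpr huL
        _ = T := Real.exp_log hT0
    calc Real.exp u * Real.exp (-L ^ 2 / 2) * (N * (N * Real.sqrt (2 * Real.pi))) ≤
        T * Real.exp (-L ^ 2 / 2) * ((C2 * (T * L)) * ((C2 * (T * L)) * Real.sqrt (2 * Real.pi))) := by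
          gcongr
      _ = C2 ^ 2 * Real.sqrt (2 * Real.pi) * L ^ 2 * (T ^ 3 * Real.exp (-L ^ 2 / 2)) := by ring
      _ ≤ C2 ^ 2 * Real.sqrt (2 * Real.pi) * L ^ 2 * 1 := by gcongr
      _ ≤ C2 ^ 2 * Real.sqrt (2 * Real.pi) * L ^ 2 * L := by gcongr
      _ = _ := by ring
  have h4 : 1 ≤ Real.exp (3 / 8 * u) := Real.one_le_exp (by positivity)
  calc 8 * Real.exp (3 / 8 * u) * (C1 * L ^ 3) +
      8 * (Real.exp u * Real.exp (-L ^ 2 / 2)) * (N * (N * Real.sqrt (2 * Real.pi))) =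
      8 * Real.exp (3 / 8 * u) * (C1 * L ^ 3) +
      8 * (Real.exp u * Real.exp (-L ^ 2 / 2) * (N * (N * Real.sqrt (2 * Real.pi)))) := by ring
    _ ≤ 8 * Real.exp (3 / 8 * u) * (C1 * L ^ 3) +
      8 * (C2 ^ 2 * Real.sqrt (2 * Real.pi) * L ^ 3) * Real.exp (3 / 8 * u) := by
        have h5 : 0 ≤ 8 * (C2 ^ 2 * Real.sqrt (2 * Real.pi) * L ^ 3) := by positivity
        nlinarith
    _ = _ := by ring

end zeros

end H370.AS
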