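import Pool.Agent.H345R2.AS.Gauss
import Pool.Agent.H345R2.AS.Count

/-! The second moment of the off-diagonal terms. -/

open Complex Filter Topology Set MeasureTheory
open scoped BigOperators ComplexConjugate

namespace H370.AS

/-- the off-diagonal pairs -/
def off (X : ℕ) : Finset (ℕ × ℕ) := (sq X).filter (fun p => p.1 ≠ p.2)

/-- the coefficient of a pair -/
noncomputable def cf (b : ℕ → ℂ) (σ : ℝ) (p : ℕ × ℕ) : ℂ :=
  b p.1 * conj (b p.2) * (Real.exp (-(σ ^ 2 * ld p ^ 2) / 2) : ℝ)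

/-- the off-diagonal part of the Gaussian average -/
noncomputable def EE (b : ℕ → ℂ) (X : ℕ) (σ x : ℝ) : ℂ :=
  ∑ p ∈ off X, cf b σ p * cexp (-(I * x * ld p))

/-- the finite Dirichlet polynomial -/
noncomputable def DP (b : ℕ → ℂ) (X : ℕ) (t : ℝ) : ℂ :=
  ∑ n ∈ Finset.Icc 1 X, b n * cexp (-(I * t * Real.log n))

lemma DP_cont (b : ℕ → ℂ) (X : ℕ) : Continuous (DP b X) := by
  unfold DP; fun_prop

lemma EE_cont (b : ℕ → ℂ) (X : ℕ) (σ : ℝ) : Continuous (EE b X σ) := by
  unfold EE; fun_prop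

/-- the Gaussian average of the square -/
theorem gauss_DP (b : ℕ → ℂ) (X : ℕ) (σ x : ℝ) (hσ : 0 < σ) :
    Integrable (fun y : ℝ => Gs σ (y - x) * ‖DP b X y‖ ^ 2) ∧
    ∫ y : ℝ, Gs σ (y - x) * ‖DP b X y‖ ^ 2 ≤
      ∑ n ∈ Finset.Icc 1 X, ‖b n‖ ^ 2 + ‖EE b X σ x‖ := by
  classical
  obtain ⟨h1, h2⟩ := gauss_ms (Finset.Icc 1 X) b (fun n => Real.log n) σ x hσ
  refine ⟨h1, ?_⟩
  have h3 : ∑ j ∈ Finset.Icc 1 X, ∑ k ∈ Finset.Icc 1 X, b j * conj (b k) *
      (cexp (-(I * x * ((Real.log j - Real.log k : ℝ) : ℂ))) *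
        Real.exp (-(σ ^ 2 * (Real.log j - Real.log k) ^ 2) / 2)) =
      ((∑ n ∈ Finset.Icc 1 X, ‖b n‖ ^ 2 : ℝ) : ℂ) + EE b X σ x := by
    rw [← Finset.sum_product' (f := fun j k => b j * conj (b k) *
      (cexp (-(I * x * ((Real.log j - Real.log k : ℝ) : ℂ))) *
        Real.exp (-(σ ^ 2 * (Real.log j - Real.log k) ^ 2) / 2)))]
    have h4 : (Finset.Icc 1 X ×ˢ Finset.Icc 1 X : Finset (ℕ × ℕ)) = sq X := rfl
    rw [h4, ← Finset.sum_filter_add_sum_filter_not (sq X) (fun p => p.1 = p.2)]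
    congr 1
    · have h5 : (sq X).filter (fun p => p.1 = p.2) =
          (Finset.Icc 1 X).image (fun n => (n, n)) := by
        ext p
        rw [Finset.mem_filter, mem_sq, Finset.mem_image]
        constructor
        · rintro ⟨⟨⟨a1, a2⟩, -⟩, a3⟩
          exact ⟨p.1, Finset.mem_Icc.mpr ⟨a1, a2⟩, Prod.ext rfl a3⟩
        · rintro ⟨n, hn, rfl⟩
          rw [Finset.mem_Icc] at hn
          exact ⟨⟨hn, hn⟩, rfl⟩
      rw [h5, Finset.sum_image (fun a _ b _ h => (Prod.mk.inj h).1)]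
      push_cast
      refine Finset.sum_congr rfl fun n _ => ?_
      simp only [sub_self]
      rw [Complex.mul_conj, Complex.normSq_eq_norm_sq]
      simp
    · unfold EE off cf ld
      refine Finset.sum_congr rfl fun p _ => ?_
      ring
  rw [h3] at h2
  have h6 := congrArg Complex.re h2
  rw [Complex.ofReal_re, Complex.add_re, Complex.ofReal_re] at h6
  have h7 : ∫ y : ℝ, Gs σ (y - x) * ‖DP b X y‖ ^ 2 =
      ∑ n ∈ Finset.Icc 1 X, ‖b n‖ ^ 2 + (EE b X σ x).re := h6
  rw [h7]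
  have := Complex.re_le_norm (EE b X σ x)
  linarith

/-- the second moment of the off-diagonal part -/
theorem EE_second (b : ℕ → ℂ) (X D : ℕ) (σ s x0 Bd ω ν τ : ℝ) (hs : 0 < s)
    (hBd : 0 ≤ Bd) (hb : ∀ n ∈ Finset.Icc 1 X, ‖b n‖ ≤ Bd / Real.sqrt n)
    (hω0 : 0 ≤ ω) (hω : ω ≤ 1) (hν0 : 0 ≤ ν) (hν : ν ≤ 1) (hνX : ν * X < 1)
    (hD : ∀ v : ℕ, 1 ≤ v → v ≤ X ^ 2 → v.divisors.card ≤ D)
    (hτ1 : Real.exp (-(σ ^ 2 * ω ^ 2) / 2) ≤ τ) (hτ2 : Real.exp (-(s ^ 2 * ν ^ 2) / 2) ≤ τ) :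
    ∫ x in (x0 - 2 * s)..(x0 + 2 * s), ‖EE b X σ x‖ ^ 2 ≤
      s * Real.sqrt (2 * Real.pi) * Real.exp 2 * (Bd ^ 4 *
        (4 * ω * (D * (4 * ν * X ^ 2 + 1)) * (1 + Real.log X) ^ 2 + τ * X ^ 4)) := by
  classical
  obtain ⟨h1, h2⟩ := gauss_ms (off X) (cf b σ) ld s x0 hs
  have hτ0 : 0 ≤ τ := (Real.exp_pos _).le.trans hτ1
  have hsp : 0 < Real.sqrt (2 * Real.pi) := Real.sqrt_pos.mpr (by positivity)
  -- the Gaussian mean square
  have hcf : ∀ p ∈ off X, ‖cf b σ p‖ ≤ Bd ^ 2 / (Real.sqrt p.1 * Real.sqrt p.2) *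
      Real.exp (-(σ ^ 2 * ld p ^ 2) / 2) := by
    intro p hp
    unfold off at hp
    rw [Finset.mem_filter, mem_sq] at hp
    obtain ⟨⟨⟨a1, a2⟩, a3, a4⟩, -⟩ := hp
    unfold cf
    rw [norm_mul, norm_mul, RCLike.norm_conj, Complex.norm_real,
      Real.norm_of_nonneg (Real.exp_pos _).le]
    apply mul_le_mul_of_nonneg_right _ (Real.exp_pos _).le
    have e1 := hb p.1 (Finset.mem_Icc.mpr ⟨a1, a2⟩)
    have e2 := hb p.2 (Finset.mem_Icc.mpr ⟨a3, a4⟩)
    calc ‖b p.1‖ * ‖b p.2‖ ≤ Bd / Real.sqrt p.1 * (Bd / Real.sqrt p.2) := by gcongr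
      _ = _ := by rw [div_mul_div_comm]; ring
  have hG2 : ∫ y : ℝ, Gs s (y - x0) * ‖EE b X σ y‖ ^ 2 ≤ Bd ^ 4 *
        (4 * ω * (D * (4 * ν * X ^ 2 + 1)) * (1 + Real.log X) ^ 2 + τ * X ^ 4) := by
    have h3 : ∫ y : ℝ, Gs s (y - x0) * ‖EE b X σ y‖ ^ 2 ≤
        ∑ j ∈ off X, ∑ k ∈ off X, ‖cf b σ j‖ * ‖cf b σ k‖ *
          Real.exp (-(s ^ 2 * (ld j - ld k) ^ 2) / 2) := by
      have h4 : ∫ y : ℝ, Gs s (y - x0) * ‖EE b X σ y‖ ^ 2 ≤
          ‖((∫ y : ℝ, Gs s (y - x0) * ‖∑ j ∈ off X, cf b σ j * cexp (-(I * y * ld j))‖ ^ 2 : ℝ) :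
            ℂ)‖ := by
        rw [Complex.norm_real]
        exact le_trans (le_refl _) (Real.le_norm_self _)
      refine h4.trans ?_
      rw [h2]
      refine (norm_sum_le _ _).trans (Finset.sum_le_sum fun j _ => ?_)
      refine (norm_sum_le _ _).trans (Finset.sum_le_sum fun k _ => ?_)
      rw [norm_mul, norm_mul, norm_mul, RCLike.norm_conj, Complex.norm_real,
        Real.norm_of_nonneg (Real.exp_pos _).le]
      have h5 : ‖cexp (-(I * x0 * ((ld j - ld k : ℝ) : ℂ)))‖ = 1 := by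
        rw [show -(I * (x0 : ℂ) * ((ld j - ld k : ℝ) : ℂ)) =
          ((-(x0 * (ld j - ld k)) : ℝ) : ℂ) * I by push_cast; ring, Complex.norm_exp_ofReal_mul_I]
      rw [h5, one_mul]
    refine h3.trans ?_
    have h6 : ∀ j ∈ off X, ∀ k ∈ off X, ‖cf b σ j‖ * ‖cf b σ k‖ *
          Real.exp (-(s ^ 2 * (ld j - ld k) ^ 2) / 2) ≤
        Bd ^ 4 * ((if (j, k) ∈ close X ω ν then wt (j, k) else 0) + τ) := by
      intro j hj k hk
      have e1 := hcf j hj
      have e2 := hcf k hk
      have hj' := hj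
      have hk' := hk
      unfold off at hj' hk'
      rw [Finset.mem_filter] at hj' hk'
      have e3 : ‖cf b σ j‖ * ‖cf b σ k‖ * Real.exp (-(s ^ 2 * (ld j - ld k) ^ 2) / 2) ≤
          Bd ^ 4 * wt (j, k) * (Real.exp (-(σ ^ 2 * ld j ^ 2) / 2) *
            Real.exp (-(σ ^ 2 * ld k ^ 2) / 2) * Real.exp (-(s ^ 2 * (ld j - ld k) ^ 2) / 2)) := by
        calc ‖cf b σ j‖ * ‖cf b σ k‖ * Real.exp (-(s ^ 2 * (ld j - ld k) ^ 2) / 2) ≤
            (Bd ^ 2 / (Real.sqrt j.1 * Real.sqrt j.2) * Real.exp (-(σ ^ 2 * ld j ^ 2) / 2)) *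
            (Bd ^ 2 / (Real.sqrt k.1 * Real.sqrt k.2) * Real.exp (-(σ ^ 2 * ld k ^ 2) / 2)) *
            Real.exp (-(s ^ 2 * (ld j - ld k) ^ 2) / 2) := by gcongr
          _ = _ := by
            unfold wt
            simp only
            have : Bd ^ 2 / (Real.sqrt j.1 * Real.sqrt j.2) *
                (Bd ^ 2 / (Real.sqrt k.1 * Real.sqrt k.2)) = Bd ^ 4 *
                (1 / (Real.sqrt j.1 * Real.sqrt j.2 * (Real.sqrt k.1 * Real.sqrt k.2))) := by
              rw [div_mul_div_comm, mul_one_div]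
              congr 1
              ring
            rw [← this]
            ring
      refine e3.trans ?_
      have hw0 := wt_nonneg (j, k)
      have hw1 : wt (j, k) ≤ 1 := by
        have hj2 := hj'.1
        have hk2 := hk'.1
        rw [mem_sq] at hj2 hk2
        unfold wt
        simp only
        have g : ∀ n : ℕ, 1 ≤ n → 1 ≤ Real.sqrt n := by
          intro n hn
          rw [Real.one_le_sqrt]
          exact_mod_cast hn
        rw [div_le_one (by
          have := g j.1 hj2.1.1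
          have := g j.2 hj2.2.1
          have := g k.1 hk2.1.1
          have := g k.2 hk2.2.1
          positivity)]
        calc (1 : ℝ) = 1 * 1 * (1 * 1) := by norm_num
          _ ≤ _ := by
            gcongr
            · exact g _ hj2.1.1
            · exact g _ hj2.2.1
            · exact g _ hk2.1.1
            · exact g _ hk2.2.1
      have hx1 : ∀ z : ℝ, Real.exp (-(σ ^ 2 * z ^ 2) / 2) ≤ 1 := by
        intro z
        apply Real.exp_le_one_iff.mpr
        have : 0 ≤ σ ^ 2 * z ^ 2 := by positivity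
        linarith
      have hx2 : ∀ z : ℝ, Real.exp (-(s ^ 2 * z ^ 2) / 2) ≤ 1 := by
        intro z
        apply Real.exp_le_one_iff.mpr
        have : 0 ≤ s ^ 2 * z ^ 2 := by positivity
        linarith
      rw [mul_assoc]
      apply mul_le_mul_of_nonneg_left _ (by positivity)
      by_cases hcl : (j, k) ∈ close X ω ν
      · rw [if_pos hcl]
        have h7 : Real.exp (-(σ ^ 2 * ld j ^ 2) / 2) *
            Real.exp (-(σ ^ 2 * ld k ^ 2) / 2) * Real.exp (-(s ^ 2 * (ld j - ld k) ^ 2) / 2) ≤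
            1 * 1 * 1 := by
          gcongr
          · exact hx1 _
          · exact hx1 _
          · exact hx2 _
        nlinarith
      · rw [if_neg hcl, zero_add]
        have h8 : ¬ (|ld j| ≤ ω ∧ |ld k| ≤ ω ∧ |ld j - ld k| ≤ ν) := by
          intro hc
          apply hcl
          unfold close
          rw [Finset.mem_filter, Finset.mem_product]
          exact ⟨⟨hj'.1, hk'.1⟩, hj'.2, hk'.2, hc.1, hc.2.1, hc.2.2⟩
        have hbig : ∀ z : ℝ, ¬ |z| ≤ ω → Real.exp (-(σ ^ 2 * z ^ 2) / 2) ≤ τ := by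
          intro z hz
          refine le_trans ?_ hτ1
          apply Real.exp_le_exp.mpr
          push Not at hz
          have : ω ^ 2 ≤ z ^ 2 := by
            rw [← sq_abs z]
            exact pow_le_pow_left₀ hω0 hz.le 2
          have : σ ^ 2 * ω ^ 2 ≤ σ ^ 2 * z ^ 2 := mul_le_mul_of_nonneg_left this (sq_nonneg _)
          linarith
        have hbig2 : ∀ z : ℝ, ¬ |z| ≤ ν → Real.exp (-(s ^ 2 * z ^ 2) / 2) ≤ τ := by
          intro z hz
          refine le_trans ?_ hτ2
          apply Real.exp_le_exp.mpr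
          push Not at hz
          have : ν ^ 2 ≤ z ^ 2 := by
            rw [← sq_abs z]
            exact pow_le_pow_left₀ hν0 hz.le 2
          have : s ^ 2 * ν ^ 2 ≤ s ^ 2 * z ^ 2 := mul_le_mul_of_nonneg_left this (sq_nonneg _)
          linarith
        have h9 : Real.exp (-(σ ^ 2 * ld j ^ 2) / 2) *
            Real.exp (-(σ ^ 2 * ld k ^ 2) / 2) * Real.exp (-(s ^ 2 * (ld j - ld k) ^ 2) / 2) ≤
            τ := by
          by_cases g1 : |ld j| ≤ ω
          · by_cases g2 : |ld k| ≤ ω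
            · have g3 : ¬ |ld j - ld k| ≤ ν := fun h => h8 ⟨g1, g2, h⟩
              calc _ ≤ 1 * 1 * τ := by
                    gcongr
                    · exact hx1 _
                    · exact hx1 _
                    · exact hbig2 _ g3
                _ = τ := by ring
            · calc _ ≤ 1 * τ * 1 := by
                    gcongr
                    · exact hx1 _
                    · exact hbig _ g2
                    · exact hx2 _
                _ = τ := by ring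
          · calc _ ≤ τ * 1 * 1 := by
                    gcongr
                    · exact hbig _ g1
                    · exact hx1 _
                    · exact hx2 _
              _ = τ := by ring
        calc wt (j, k) * (Real.exp (-(σ ^ 2 * ld j ^ 2) / 2) *
            Real.exp (-(σ ^ 2 * ld k ^ 2) / 2) * Real.exp (-(s ^ 2 * (ld j - ld k) ^ 2) / 2)) ≤
            1 * τ := by gcongr
          _ = τ := one_mul _
    refine (Finset.sum_le_sum fun j hj => Finset.sum_le_sum fun k hk => h6 j hj k hk).trans ?_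
    simp_rw [← Finset.mul_sum]
    apply mul_le_mul_of_nonneg_left _ (by positivity)
    simp_rw [Finset.sum_add_distrib]
    apply add_le_add
    · have h10 : ∑ j ∈ off X, ∑ k ∈ off X, (if (j, k) ∈ close X ω ν then wt (j, k) else 0) ≤
          ∑ p ∈ close X ω ν, wt p := by
        rw [← Finset.sum_product' (f := fun j k => if (j, k) ∈ close X ω ν then wt (j, k) else 0),
          ← Finset.sum_filter]
        apply Finset.sum_le_sum_of_subset_of_nonneg
        · intro p hp
          rw [Finset.mem_filter] at hp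
          exact hp.2
        · intro p _ _
          exact wt_nonneg p
      exact h10.trans (close_sum X D ω ν hω0 hω hν0 hν hνX hD)
    · rw [Finset.sum_const, Finset.sum_const, nsmul_eq_mul, nsmul_eq_mul]
      have h11 : ((off X).card : ℝ) ≤ X ^ 2 := by
        have h12 : (off X).card ≤ (sq X).card := Finset.card_filter_le _ _
        have h13 : (sq X).card = X ^ 2 := by
          unfold sq
          rw [Finset.card_product, Nat.card_Icc]
          simp [pow_two]
        rw [h13] at h12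
        exact_mod_cast h12
      calc ((off X).card : ℝ) * (((off X).card : ℝ) * τ) ≤ (X : ℝ) ^ 2 * ((X : ℝ) ^ 2 * τ) := by
            gcongr
        _ = τ * X ^ 4 := by ring
  -- restrict to the interval
  have hlow : ∀ y ∈ Set.Icc (x0 - 2 * s) (x0 + 2 * s), ‖EE b X σ y‖ ^ 2 ≤
      s * Real.sqrt (2 * Real.pi) * Real.exp 2 * (Gs s (y - x0) * ‖EE b X σ y‖ ^ 2) := by
    intro y hy
    have h3 : 1 ≤ s * Real.sqrt (2 * Real.pi) * Real.exp 2 * Gs s (y - x0) := by
      unfold Gs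
      have h4 : s * Real.sqrt (2 * Real.pi) * Real.exp 2 *
          (1 / (s * Real.sqrt (2 * Real.pi)) * Real.exp (-(y - x0) ^ 2 / (2 * s ^ 2))) =
          Real.exp (2 + -(y - x0) ^ 2 / (2 * s ^ 2)) := by
        rw [Real.exp_add]
        field_simp
      rw [h4]
      apply Real.one_le_exp
      have h5 : (y - x0) ^ 2 ≤ (2 * s) ^ 2 := by
        apply sq_le_sq'
        · linarith [hy.1]
        · linarith [hy.2]
      have h6 : (y - x0) ^ 2 / (2 * s ^ 2) ≤ 2 := by
        rw [div_le_iff₀ (by positivity)]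
        nlinarith
      have h7 : -(y - x0) ^ 2 / (2 * s ^ 2) = -((y - x0) ^ 2 / (2 * s ^ 2)) := neg_div _ _
      rw [h7]
      linarith
    have h8 : 0 ≤ ‖EE b X σ y‖ ^ 2 := by positivity
    nlinarith
  have hcontE : Continuous fun y => ‖EE b X σ y‖ ^ 2 := ((EE_cont b X σ).norm.pow 2)
  have hint : Integrable fun y : ℝ => Gs s (y - x0) * ‖EE b X σ y‖ ^ 2 := h1
  calc ∫ x in (x0 - 2 * s)..(x0 + 2 * s), ‖EE b X σ x‖ ^ 2 ≤
      ∫ y in (x0 - 2 * s)..(x0 + 2 * s), s * Real.sqrt (2 * Real.pi) * Real.exp 2 *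
        (Gs s (y - x0) * ‖EE b X σ y‖ ^ 2) := by
        refine intervalIntegral.integral_mono_on (by linarith) (hcontE.intervalIntegrable _ _) ?_ hlow
        exact (hint.const_mul _).intervalIntegrable
    _ = s * Real.sqrt (2 * Real.pi) * Real.exp 2 *
        ∫ y in (x0 - 2 * s)..(x0 + 2 * s), Gs s (y - x0) * ‖EE b X σ y‖ ^ 2 :=
        intervalIntegral.integral_const_mul _ _
    _ ≤ s * Real.sqrt (2 * Real.pi) * Real.exp 2 * ∫ y : ℝ, Gs s (y - x0) * ‖EE b X σ y‖ ^ 2 := by
        apply mul_le_mul_of_nonneg_left _ (by positivity)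
        rw [intervalIntegral.integral_of_le (by linarith)]
        exact setIntegral_le_integral hint (Eventually.of_forall fun y =>
          mul_nonneg (Gs_nonneg hs _) (by positivity))
    _ ≤ _ := by
        apply mul_le_mul_of_nonneg_left hG2 (by positivity)

end H370.AS
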